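import Pool.Agent.R211.CD.Fix

/-!
The criterion: the direction of the vorticity has small oscillation.
-/

open MeasureTheory Set Metric Filter Topology
open scoped ContDiff ENNReal
open H459R3.NS Pool.Agent.R210

namespace Pool.Agent.R211.CD

variable {ν T : ℝ} {u : ℝ → V → V} {p : ℝ → V → ℝ}

/-- The criterion. -/
theorem crit (h : IsSol ν T u p) (hν : 0 < ν) {K J : ℝ} (hK : 0 < K)
    (hJt : ∀ t ∈ Ico 0 T, ∫ x in cube, en (cu (u t) x) ≤ J) {g0 : ℝ → ℝ}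
    (hg0 : IntegrableOn g0 (Ioo 0 T))
    (hosc : ∀ᵐ t ∂volume.restrict (Ioo 0 T), ∃ R η : ℝ, 0 < η ∧ η ≤ R ∧ R ≤ 1 ∧
      (R * η ^ 2)⁻¹ ≤ g0 t ∧ Osc (cu (u t)) K (1 / 10) R ∧
      Osc (cu (u t)) K (c0 * (ν * R / (J + K)) ^ 3) η) :
    (∃ A, ∀ t ∈ Ico 0 T, enstrophy (u t) ≤ A) ∧ ∃ M, ∀ t ∈ Ico 0 T, ∀ x i, |u t x i| ≤ M := by
  classical
  rcases le_or_gt T 0 with hT | hT
  · have : Ico 0 T = ∅ := Ico_eq_empty (by linarith)
    rw [this]
    exact ⟨⟨0, fun t ht => absurd ht (notMem_empty t)⟩, ⟨0, fun t ht => absurd ht (notMem_empty t)⟩⟩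
  set E0 : ℝ := energy (u 0) / (2 * ν) with hE0
  have hE : ∀ t ∈ Ico 0 T, ∫ s in (0 : ℝ)..t, enstrophy (u s) ≤ E0 := fun t ht =>
    h.int_enstrophy hν ht
  have hJ0 : 0 ≤ J := (integral_nonneg fun x => en_nonneg _).trans (hJt 0 ⟨le_rfl, hT⟩)
  set C' : ℝ := Clow ν K J with hC'
  have hC'0 : 0 ≤ C' := Clow_nonneg hν hK.le hJ0
  set m0 : ℝ → ℝ := fun s => 1 + |g0 s| with hm0
  have hm01 : ∀ s, 1 ≤ m0 s := fun s => by
    have := abs_nonneg (g0 s)
    simp only [hm0]; linarith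
  have hm0i : IntegrableOn m0 (Ioo 0 T) := by
    have h2 : IntegrableOn (fun _ : ℝ => (1 : ℝ)) (Ioo 0 T) := by simp [integrableOn_const_iff]
    exact h2.add hg0.abs
  set m : ℝ → ℝ := fun s => m0 s + enstrophy (u s) with hm
  have hy0 : ∀ s, 0 ≤ enstrophy (u s) := fun s => enstrophy_nonneg _
  have hm1 : ∀ s, 1 ≤ m s := fun s => by
    have := hm01 s; have := hy0 s
    simp only [hm]; linarith
  set P : ℝ → Prop := fun s => ∃ R η : ℝ, 0 < η ∧ η ≤ R ∧ R ≤ 1 ∧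
      (R * η ^ 2)⁻¹ ≤ g0 s ∧ Osc (cu (u s)) K (1 / 10) R ∧
      Osc (cu (u s)) K (c0 * (ν * R / (J + K)) ^ 3) η with hP
  have hMex : ∀ s, ∃ M : ℝ, s ∈ Ioo 0 T → 0 ≤ M ∧
      -(2 * cub (fun i y => u s y i)) ≤ M * enstrophy (u s) := by
    intro s
    by_cases hs : s ∈ Ioo 0 T
    · obtain ⟨M, hM1, hM2⟩ := cub_bound (v := u s) fun i => h.sp ⟨hs.1.le, hs.2⟩ i
      exact ⟨M, fun _ => ⟨hM1, hM2⟩⟩
    · exact ⟨0, fun h => absurd h hs⟩
  choose M hM using hMex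
  set g : ℝ → ℝ := fun s => if P s then C' * m s else M s with hg
  have hgood : ∀ s ∈ Ioo 0 T, P s →
      -(2 * cub (fun i y => u s y i)) ≤ ν * palin (u s) + C' * m s * enstrophy (u s) := by
    intro s hs hPs
    have hI : s ∈ Ico 0 T := ⟨hs.1.le, hs.2⟩
    obtain ⟨R, η, hη, hηR, hR1, hQ, ho1, ho2⟩ := hPs
    have h1 := fix_time hν hK hJ0 (fun i => h.sp hI i) (h.divfree s hI) hη hηR hR1 ho1 ho2
      (hJt s hI)
    refine h1.trans ?_
    have h2 : 1 + (R * η ^ 2)⁻¹ + enstrophy (u s) ≤ m s := by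
      have := le_abs_self (g0 s)
      simp only [hm, hm0]; linarith
    have h3 := mul_le_mul_of_nonneg_right (mul_le_mul_of_nonneg_left h2 hC'0) (hy0 s)
    linarith
  -- integrability
  have hEc : ∀ t ∈ Ico 0 T, ContinuousOn (fun s => enstrophy (u s)) (Icc 0 t) := fun t ht =>
    h.enstrophy_continuousOn.mono fun s hs => ⟨hs.1, hs.2.trans_lt ht.2⟩
  have hsub : ∀ t ∈ Ico 0 T, Ioc 0 t ⊆ Ioo 0 T := fun t ht s hs => ⟨hs.1, hs.2.trans_lt ht.2⟩
  have hi0 : ∀ t ∈ Ico 0 T, IntegrableOn m0 (Ioc 0 t) := fun t ht => hm0i.mono_set (hsub t ht)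
  have hi1 : ∀ t ∈ Ico 0 T, IntegrableOn (fun s => enstrophy (u s)) (Ioc 0 t) := fun t ht =>
    (hEc t ht).integrableOn_Icc.mono_set Ioc_subset_Icc_self
  have him : ∀ t ∈ Ico 0 T, IntegrableOn m (Ioc 0 t) := fun t ht => (hi0 t ht).add (hi1 t ht)
  have hgae : ∀ t ∈ Ico 0 T, (fun s => C' * m s) =ᵐ[volume.restrict (Ioc 0 t)] g := by
    intro t ht
    have h1 : ∀ᵐ s ∂volume.restrict (Ioc 0 t), P s :=
      ae_mono (Measure.restrict_mono (hsub t ht) le_rfl) hosc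
    filter_upwards [h1] with s hs
    simp only [hg, if_pos hs]
  have hgi : ∀ t ∈ Ico 0 T, IntegrableOn g (Icc 0 t) := by
    intro t ht
    rw [integrableOn_Icc_iff_integrableOn_Ioc]
    exact ((him t ht).const_mul C').congr (hgae t ht)
  have hres := h.gron hν (g := g) (δ := 1)
    (B := C' * ((∫ s in Ioo 0 T, m0 s) + E0)) one_pos ?_ hgi ?_ ?_
  · exact ⟨⟨_, hres.1⟩, hres.2⟩
  · intro s hs
    simp only [hg]
    split_ifs with hPs
    · exact mul_nonneg hC'0 (by linarith [hm1 s])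
    · exact (hM s hs).1
  · intro t ht
    rw [intervalIntegral.integral_of_le ht.1, ← integral_congr_ae (hgae t ht),
      integral_const_mul]
    refine mul_le_mul_of_nonneg_left ?_ hC'0
    have e1 : ∫ s in Ioc 0 t, m s = (∫ s in Ioc 0 t, m0 s) + ∫ s in Ioc 0 t, enstrophy (u s) := by
      simp only [hm]
      exact integral_add (hi0 t ht) (hi1 t ht)
    have a1 : ∫ s in Ioc 0 t, m0 s ≤ ∫ s in Ioo 0 T, m0 s :=
      setIntegral_mono_set hm0i (Filter.Eventually.of_forall fun s => zero_le_one.trans (hm01 s))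
        (hsub t ht).eventuallyLE
    have a2 := hE t ht
    rw [intervalIntegral.integral_of_le ht.1] at a2
    rw [e1]
    linarith
  · intro s hs
    simp only [hg]
    split_ifs with hPs
    · have := hgood s hs hPs
      linarith
    · have h1 := (hM s hs).2
      have h2 : 0 ≤ (2 - 1) * (ν * palin (u s)) := by
        have := palin_nonneg (u s)
        positivity
      linarith

/-- The a priori bound of the integral of the length of the vorticity. -/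
theorem exists_J (h : IsSol ν T u p) (hν : 0 < ν) :
    ∃ J : ℝ, ∀ t ∈ Ico 0 T, ∫ x in cube, en (cu (u t) x) ≤ J := by
  refine ⟨EH (u 0) + 4 * (energy (u 0) / (2 * ν)), fun t ht => ?_⟩
  have h1 := int_en_le (v := u t) fun i => h.sp ht i
  have h2 := EH_le h hν ht
  have h3 := h.int_enstrophy hν ht
  linarith

/-- The criterion for a uniformly continuous direction. -/
theorem crit_uc (h : IsSol ν T u p) (hν : 0 < ν) {K : ℝ}
    (hosc : ∀ ε : ℝ, 0 < ε → ∃ r : ℝ, 0 < r ∧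
      ∀ᵐ t ∂volume.restrict (Ioo 0 T), Osc (cu (u t)) K ε r) :
    (∃ A, ∀ t ∈ Ico 0 T, enstrophy (u t) ≤ A) ∧ ∃ M, ∀ t ∈ Ico 0 T, ∀ x i, |u t x i| ≤ M := by
  rcases le_or_gt T 0 with hT | hT
  · have : Ico 0 T = ∅ := Ico_eq_empty (by linarith)
    rw [this]
    exact ⟨⟨0, fun t ht => absurd ht (notMem_empty t)⟩, ⟨0, fun t ht => absurd ht (notMem_empty t)⟩⟩
  obtain ⟨J, hJ⟩ := exists_J h hν
  have hJ0 : 0 ≤ J := (integral_nonneg fun x => en_nonneg _).trans (hJ 0 ⟨le_rfl, hT⟩)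
  set L : ℝ := max K 1 with hL
  have hL0 : 0 < L := lt_max_of_lt_right one_pos
  have hup : ∀ {w : V → V} {δ r : ℝ}, Osc w K δ r → Osc w L δ r := fun h x y hx hy hxy =>
    h x y ((le_max_left K 1).trans_lt hx) ((le_max_left K 1).trans_lt hy) hxy
  obtain ⟨r0, hr0, h0⟩ := hosc (1 / 10) (by norm_num)
  set R : ℝ := min r0 1 with hR
  have hR0 : 0 < R := lt_min hr0 one_pos
  have hc0 := c0_pos
  obtain ⟨r1, hr1, h1⟩ := hosc (c0 * (ν * R / (J + L)) ^ 3) (by positivity)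
  set η : ℝ := min r1 R with hη
  have hη0 : 0 < η := lt_min hr1 hR0
  refine crit h hν (K := L) (J := J) hL0 hJ (g0 := fun _ => (R * η ^ 2)⁻¹)
    (integrableOn_const measure_Ioo_lt_top.ne) ?_
  filter_upwards [h0, h1] with t ht0 ht1
  exact ⟨R, η, hη0, min_le_right _ _, min_le_right _ _, le_rfl,
    (hup ht0).mono le_rfl (min_le_left _ _), (hup ht1).mono le_rfl (min_le_left _ _)⟩

end Pool.Agent.R211.CD
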