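import Pool.Agent.R211.CD.Mor
import Pool.Agent.R210.Cut

/-!
The critical Morrey bound for periodic fields whose direction has small oscillation at a fixed
scale.
-/

open MeasureTheory Set Metric Filter Topology
open scoped ContDiff RealInnerProductSpace
open H459R3.NS Pool.Agent.R210

namespace Pool.Agent.R211.CD

/-- The oscillation of the direction at the scale `r` is at most `δ` where the field is larger
than `K`. -/
def Osc (w : V → V) (K δ r : ℝ) : Prop := ∀ x y, K < en (w x) → K < en (w y) → en (x - y) ≤ r →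
  en (en (w y) • w x - en (w x) • w y) ≤ δ * (en (w x) * en (w y))

theorem Osc.mono {w : V → V} {K δ δ' r r' : ℝ} (h : Osc w K δ r) (hδ : δ ≤ δ') (hr : r' ≤ r) :
    Osc w K δ' r' := fun x y hx hy hxy =>
  (h x y hx hy (hxy.trans hr)).trans
    (mul_le_mul_of_nonneg_right hδ (mul_nonneg (en_nonneg _) (en_nonneg _)))

/-- The sine of the angle is at most the distance of the directions. -/
theorem cross_of_dir (a b : V) {δ : ℝ} (ha0 : 0 < en a) (hb0 : 0 < en b)
    (h1 : en (en b • a - en a • b) ≤ δ * (en a * en b)) :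
    en (crossProduct a b) ≤ δ * (en a * en b) := by
  have hab : 0 < en a * en b := mul_pos ha0 hb0
  have hδ : 0 ≤ δ := by
    by_contra hc
    push Not at hc
    have := (en_nonneg _).trans h1
    have := mul_neg_of_neg_of_pos hc hab
    linarith
  refine le_of_sq_le_sq ?_ (by positivity)
  rw [en_sq]
  have h2 := pow_le_pow_left₀ (en_nonneg _) h1 2
  rw [en_sq] at h2
  refine le_trans ?_ h2
  have h3 : rsq (en b • a - en a • b) = 2 * (en a * en b) * (en a * en b - ∑ i, a i * b i) := by
    have e2 : rsq (en b • a - en a • b)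
        = en b ^ 2 * rsq a + en a ^ 2 * rsq b - 2 * (en a * en b) * ∑ i, a i * b i := by
      simp only [rsq, Fin.sum_univ_three, Pi.sub_apply, Pi.smul_apply, smul_eq_mul]
      ring
    rw [e2, ← en_sq a, ← en_sq b]
    ring
  rw [h3, ← lagrange, ← en_sq a, ← en_sq b]
  set s := ∑ i, a i * b i with hs
  have h4 : s ^ 2 ≤ (en a * en b) ^ 2 := by
    have := cs3 a b
    rw [← en_sq a, ← en_sq b, ← mul_pow] at this
    exact this
  have h6 := abs_le_of_sq_le_sq' h4 hab.le
  nlinarith [sq_nonneg (en a * en b - s)]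

/-- The constant of the Morrey bound of periodic fields. -/
noncomputable def CMR : ℝ := 55 * CMo + v3

theorem CMR_pos : 0 < CMR := by
  have h1 := CMo_pos
  have h2 := v3_pos
  unfold CMR
  positivity

section

variable {w : V → V} (hw : ∀ i, SP (fun x => w x i))

include hw in
/-- The Morrey bound. -/
theorem mor_per (hdiv : ∀ x, dv w x = 0) {K R : ℝ} (hK : 0 ≤ K) (hR0 : 0 < R) (hR1 : R ≤ 1)
    (h : Osc w K (1 / 10) R) {τ : ℝ} (hτ : 0 < τ) (hτR : τ ≤ R / 4) (x : V) :
    ∫ y in eb x τ, en (w y) ≤ CMR * ((∫ x in cube, en (w x)) + K) / R * τ := by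
  have hCMo := CMo_pos
  have hv := v3_pos
  set I := ∫ x in cube, en (w x) with hI
  have hI0 : 0 ≤ I := integral_nonneg fun x => en_nonneg _
  have hlw : ContDiff ℝ 1 (lift w) := (lift_smooth hw).of_le (by norm_cast)
  have hdv : ∀ y, dvE (lift w) y = 0 := fun y => by rw [dvE_lift hw, hdiv]
  have hlc : Continuous fun y : E => ‖lift w y‖ := (lift_smooth hw).continuous.norm
  have en0 : ∀ p y : E, ‖p - y‖ = en (WithLp.ofLp p - WithLp.ofLp y) := by
    intro p y
    rw [← norm_toLp]; rfl
  have hball : ∀ (x : E) (r : ℝ), 0 < r → ∫ y in ball x r, ‖lift w y‖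
      = ∫ y in eb (WithLp.ofLp x) r, en (w y) := by
    intro x r hr
    rw [← int_ball_lift (F := fun y => en (w y)) x hr]
    simp_rw [norm_lift]
  set X : E := WithLp.toLp 2 x with hX
  have hW : ∫ y in ball X (R / 2), ‖lift w y‖ ≤ 27 * I := by
    rw [hball X (R / 2) (by positivity)]
    have h1 := eb_int (f_cont hw) (f_per hw) (fun x => en_nonneg _) (WithLp.ofLp X)
    refine le_trans ?_ h1.2
    refine setIntegral_mono_set h1.1 (Filter.Eventually.of_forall fun y => en_nonneg _) ?_
    refine LE.le.eventuallyLE fun y hy => ?_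
    unfold eb at hy ⊢
    rw [mem_ofPred_eq] at hy ⊢
    nlinarith
  have hgoal : ∫ y in eb x τ, en (w y) = ∫ y in ball X τ, ‖lift w y‖ := (hball X τ hτ).symm
  rw [hgoal]
  have hIR : 0 ≤ I / R := by positivity
  have hKR : 0 ≤ K / R := by positivity
  have hR2 : R ^ 2 ≤ 1 / R := by
    rw [le_div_iff₀ hR0]
    have h4 : R ^ 2 ≤ 1 := pow_le_one₀ hR0.le hR1
    nlinarith
  have hKR2 : K * R ^ 2 ≤ K / R := by
    calc K * R ^ 2 ≤ K * (1 / R) := mul_le_mul_of_nonneg_left hR2 hK
      _ = K / R := by ring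
  have eF : CMR * (I + K) / R * τ = (55 * CMo + v3) * (I / R + K / R) * τ := by
    unfold CMR; ring
  rw [eF]
  by_cases hp : ∃ p ∈ ball X (R / 2), K < ‖lift w p‖
  swap
  · push Not at hp
    have h2 : ∫ y in ball X τ, ‖lift w y‖ ≤ ∫ _ in ball X τ, K :=
      setIntegral_mono_on (intOn_ball hlc X τ) (integrableOn_const (measure_ball_lt_top).ne)
        measurableSet_ball fun y hy => hp y (ball_subset_ball (by linarith) hy)
    rw [setIntegral_const, smul_eq_mul, Measure.real, vol_ball X hτ.le] at h2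
    refine h2.trans ?_
    have h3 : v3 * τ ^ 3 * K ≤ v3 * (K / R) * τ := by
      have h4 : τ ^ 2 ≤ R ^ 2 := pow_le_pow_left₀ hτ.le (by linarith) 2
      calc v3 * τ ^ 3 * K = v3 * (K * τ ^ 2) * τ := by ring
        _ ≤ v3 * (K * R ^ 2) * τ := by
            refine mul_le_mul_of_nonneg_right (mul_le_mul_of_nonneg_left
              (mul_le_mul_of_nonneg_left h4 hK) hv.le) hτ.le
        _ ≤ v3 * (K / R) * τ :=
            mul_le_mul_of_nonneg_right (mul_le_mul_of_nonneg_left hKR2 hv.le) hτ.le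
    refine h3.trans (mul_le_mul_of_nonneg_right ?_ hτ.le)
    nlinarith [mul_nonneg hv.le hIR, mul_nonneg hCMo.le hIR, mul_nonneg hCMo.le hKR]
  · obtain ⟨p, hpx, hpK⟩ := hp
    have hn : 0 < ‖lift w p‖ := hK.trans_lt hpK
    set e : E := (‖lift w p‖⁻¹) • lift w p with he
    have he1 : ‖e‖ = 1 := by
      rw [he, norm_smul, norm_inv, norm_norm, inv_mul_cancel₀ hn.ne']
    have hpt : ∀ y ∈ ball X (R / 2), ‖‖lift w y‖ • e - lift w y‖
        ≤ 1 / 10 * ‖lift w y‖ + 2 * K := by
      intro y hy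
      rcases lt_or_ge K ‖lift w y‖ with hh1 | hh1
      · have hd : ‖p - y‖ ≤ R := by
          rw [mem_ball, dist_eq_norm] at hy hpx
          have e1 : p - y = (p - X) - (y - X) := by abel
          rw [e1]
          have := norm_sub_le (p - X) (y - X)
          linarith
        have h1 := h (WithLp.ofLp p) (WithLp.ofLp y) (by rwa [norm_lift] at hpK)
          (by rwa [norm_lift] at hh1) (by rwa [en0] at hd)
        have h1' : ‖‖lift w y‖ • lift w p - ‖lift w p‖ • lift w y‖
            ≤ 1 / 10 * (‖lift w p‖ * ‖lift w y‖) := by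
          rw [norm_lift, norm_lift]
          refine le_trans (le_of_eq ?_) h1
          exact norm_toLp (en (w (WithLp.ofLp y)) • w (WithLp.ofLp p)
            - en (w (WithLp.ofLp p)) • w (WithLp.ofLp y))
        have h2 : ‖lift w y‖ • e - lift w y
            = (‖lift w p‖⁻¹) • (‖lift w y‖ • lift w p - ‖lift w p‖ • lift w y) := by
          rw [he, smul_sub, smul_smul, smul_smul, smul_smul, inv_mul_cancel₀ hn.ne', one_smul,
            mul_comm]
        rw [h2, norm_smul, norm_inv, norm_norm, inv_mul_le_iff₀ hn]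
        calc _ ≤ 1 / 10 * (‖lift w p‖ * ‖lift w y‖) := h1'
          _ ≤ ‖lift w p‖ * (1 / 10 * ‖lift w y‖ + 2 * K) := by
              have := mul_nonneg hn.le hK
              linarith
      · have h1 : ‖‖lift w y‖ • e - lift w y‖ ≤ ‖lift w y‖ + ‖lift w y‖ := by
          refine (norm_sub_le _ _).trans ?_
          rw [norm_smul, he1, mul_one, norm_norm]
        have h2 : 0 ≤ 1 / 10 * ‖lift w y‖ := by positivity
        linarith
    have h1 := morrey_ball hlw hdv (x := X) (e := e) (R := R / 2) (κ := 2 * K) (by positivity)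
      (by positivity) he1 hpt hτ (by linarith)
    refine h1.trans ?_
    have h2 : (∫ y in ball X (R / 2), ‖lift w y‖) / (R / 2) + 2 * K * (R / 2) ^ 2
        ≤ 54 * (I / R) + K / R := by
      have a1 : (∫ y in ball X (R / 2), ‖lift w y‖) / (R / 2) ≤ 27 * I / (R / 2) :=
        div_le_div_of_nonneg_right hW (by positivity)
      have a2 : 27 * I / (R / 2) = 54 * (I / R) := by field_simp; ring
      have a3 : 2 * K * (R / 2) ^ 2 = 1 / 2 * (K * R ^ 2) := by ring
      rw [a2] at a1
      rw [a3]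
      linarith
    have h3 : CMo * τ * ((∫ y in ball X (R / 2), ‖lift w y‖) / (R / 2) + 2 * K * (R / 2) ^ 2)
        ≤ CMo * τ * (54 * (I / R) + K / R) := mul_le_mul_of_nonneg_left h2 (by positivity)
    refine h3.trans ?_
    have b1 : 0 ≤ CMo * (I / R) * τ := by positivity
    have b2 : 0 ≤ CMo * (K / R) * τ := by positivity
    have b3 : 0 ≤ v3 * (I / R) * τ := by positivity
    have b4 : 0 ≤ v3 * (K / R) * τ := by positivity
    have e1 : CMo * τ * (54 * (I / R) + K / R)
        = 54 * (CMo * (I / R) * τ) + CMo * (K / R) * τ := by ring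
    have e2 : (55 * CMo + v3) * (I / R + K / R) * τ = 55 * (CMo * (I / R) * τ)
        + 55 * (CMo * (K / R) * τ) + v3 * (I / R) * τ + v3 * (K / R) * τ := by ring
    rw [e1, e2]
    linarith

include hw in
/-- The bound of the averages. -/
theorem avg_osc (hdiv : ∀ x, dv w x = 0) {K R : ℝ} (hK : 0 ≤ K) (hR0 : 0 < R) (hR1 : R ≤ 1)
    (h : Osc w K (1 / 10) R) {τ : ℝ} (hτ : 0 < τ) (hτR : τ ≤ R / 4) (x : V) :
    ∫ z in U1, en (w (x - τ • z)) ≤ CMR * ((∫ x in cube, en (w x)) + K) / R / τ ^ 2 := by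
  rw [int_U1_scale (f := fun y => en (w y)) hτ x]
  have h1 := mor_per hw hdiv hK hR0 hR1 h hτ hτR x
  have h2 := mul_le_mul_of_nonneg_left h1 (by positivity : 0 ≤ τ⁻¹ ^ 3)
  refine h2.trans (le_of_eq ?_)
  field_simp

end

/-- The angle of the parts above the threshold. -/
theorem cw_ang {om : V → V} {K δ r : ℝ} (hK : 0 < K) (hδ : 0 ≤ δ) (h : Osc om K δ r) (x y : V)
    (hxy : en (x - y) ≤ r) : en (crossProduct (cw K om x) (cw K om y))
      ≤ δ * (en (cw K om x) * en (cw K om y)) := by
  have e : ∀ x, cw K om x = chi (K⁻¹ ^ 2 * rsq (om x)) • om x := fun x => rfl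
  have hz : en (0 : V) = 0 := by simp [en, rsq]
  have hgt : ∀ x, K ^ 2 < rsq (om x) → K < en (om x) := by
    intro x hx
    rw [← en_sq] at hx
    exact lt_of_pow_lt_pow_left₀ 2 (en_nonneg _) hx
  rcases le_or_gt (rsq (om x)) (K ^ 2) with hx | hx
  · rw [cw_zero hK hx, hz]
    simp [hz]
  rcases le_or_gt (rsq (om y)) (K ^ 2) with hy | hy
  · rw [cw_zero hK hy, hz]
    simp [hz]
  have h1 := cross_of_dir (om x) (om y) (hK.trans (hgt x hx)) (hK.trans (hgt y hy))
    (h x y (hgt x hx) (hgt y hy) hxy)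
  rw [e x, e y]
  have hcx := chi_nonneg (K⁻¹ ^ 2 * rsq (om x))
  have hcy := chi_nonneg (K⁻¹ ^ 2 * rsq (om y))
  set a := chi (K⁻¹ ^ 2 * rsq (om x))
  set b := chi (K⁻¹ ^ 2 * rsq (om y))
  have e1 : crossProduct (a • om x) (b • om y) = (a * b) • crossProduct (om x) (om y) := by
    rw [map_smul, map_smul, LinearMap.smul_apply, smul_smul, mul_comm b a]
  rw [e1, en_smul, en_smul, en_smul, abs_of_nonneg (mul_nonneg hcx hcy), abs_of_nonneg hcx,
    abs_of_nonneg hcy]
  calc a * b * en (crossProduct (om x) (om y))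
      ≤ a * b * (δ * (en (om x) * en (om y))) :=
        mul_le_mul_of_nonneg_left h1 (mul_nonneg hcx hcy)
    _ = _ := by ring

end Pool.Agent.R211.CD
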