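import Pool.Agent.R211.CD.Near
import Pool.Agent.R211.CD.Per

/-!
The estimate of the production of enstrophy at a fixed time.
-/

open MeasureTheory Set Metric Filter Topology
open scoped ContDiff ENNReal
open H459R3.NS Pool.Agent.R210

namespace Pool.Agent.R211.CD

/-- The absolute constants. -/
noncomputable def AA : ℝ := 2 + 288 * CQ ^ 2

theorem AA_pos : 0 < AA := by
  unfold AA
  positivity

/-- The constant of the smallness of the parameter `a`. -/
noncomputable def c1 : ℝ := 1 / (72 * (CP * CMR * (CS + 1) * AA))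

theorem c1_pos : 0 < c1 := by
  have h1 := CP_pos
  have h2 := CMR_pos
  have h3 := CS_nonneg
  have h4 := AA_pos
  unfold c1
  positivity

/-- The constant of the smallness of the oscillation. -/
noncomputable def c0 : ℝ := min 1 (c1 ^ 3)

theorem c0_pos : 0 < c0 := by
  have := c1_pos
  unfold c0
  exact lt_min one_pos (by positivity)

/-- A quadratic inequality. -/
theorem young_sqrt {P G Y ε : ℝ} (hG : 0 ≤ G) (hY : 0 ≤ Y) (hε : 0 < ε) :
    P * (Real.sqrt G * Real.sqrt Y) ≤ ε * G + P ^ 2 / (4 * ε) * Y := by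
  have eG := Real.sq_sqrt hG
  have eY := Real.sq_sqrt hY
  have h3 : ε * G + P ^ 2 / (4 * ε) * Y - P * (Real.sqrt G * Real.sqrt Y)
      = (2 * ε * Real.sqrt G - P * Real.sqrt Y) ^ 2 / (4 * ε) := by
    have : (2 * ε * Real.sqrt G - P * Real.sqrt Y) ^ 2
        = 4 * ε ^ 2 * G - 4 * ε * P * (Real.sqrt G * Real.sqrt Y) + P ^ 2 * Y := by
      calc (2 * ε * Real.sqrt G - P * Real.sqrt Y) ^ 2
          = 4 * ε ^ 2 * Real.sqrt G ^ 2 - 4 * ε * P * (Real.sqrt G * Real.sqrt Y)
            + P ^ 2 * Real.sqrt Y ^ 2 := by ring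
        _ = _ := by rw [eG, eY]
    rw [this]
    field_simp
    ring
  have h4 : 0 ≤ (2 * ε * Real.sqrt G - P * Real.sqrt Y) ^ 2 / (4 * ε) := by positivity
  linarith

/-- The constant of the lower order terms. -/
noncomputable def Clow (ν K J : ℝ) : ℝ :=
  4 * (16 * (CP + 3 * BB) * (CMR * (J + K)) + (27 * 64 * BB + 27 * BB + 1) * 3
    + (36 * BB * vU * (2 * K)) ^ 2 / (4 * (ν / (24 * AA)))) + 14 * K

theorem Clow_nonneg {ν K J : ℝ} (hν : 0 < ν) (hK : 0 ≤ K) (hJ : 0 ≤ J) : 0 ≤ Clow ν K J := by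
  have h1 := CP_pos
  have h2 := CMR_pos
  have h3 := one_le_BB
  have h4 := AA_pos
  unfold Clow
  positivity

/-- **The estimate at a fixed time.** -/
theorem fix_time {ν K J R η : ℝ} {v : V → V} (hν : 0 < ν) (hK : 0 < K) (hJ : 0 ≤ J)
    (hv : ∀ i, SP (fun x => v x i)) (hdiv : ∀ x, ∑ i, pd i (fun y => v y i) x = 0)
    (hη : 0 < η) (hηR : η ≤ R) (hR1 : R ≤ 1) (hosc : Osc (cu v) K (1 / 10) R)
    (hosc2 : Osc (cu v) K (c0 * (ν * R / (J + K)) ^ 3) η)
    (hIJ : ∫ x in cube, en (cu v x) ≤ J) :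
    -(2 * cub (fun i y => v y i))
      ≤ ν * palin v + Clow ν K J * (1 + (R * η ^ 2)⁻¹ + enstrophy v) * enstrophy v := by
  have hCP := CP_pos
  have hCM := CMR_pos
  have hCS := CS_nonneg
  have hAA := AA_pos
  have hB := one_le_BB
  have hvU := vU_nonneg
  have hc1 := c1_pos
  have hR0 : 0 < R := hη.trans_le hηR
  have hom := sp_cu hv
  have hw := sp_cw hom K
  have hl : ∀ i, SP (fun x => (cu v x - cw K (cu v) x) i) := fun i => (hom i).sub (hw i)
  have hy0 := enstrophy_nonneg v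
  have hP0' := palin_nonneg v
  have hJK : 0 < J + K := by linarith
  set Λ : ℝ := CMR * (J + K) / R with hΛ
  have hΛ0 : 0 < Λ := by positivity
  set a : ℝ := min 1 (c1 * (ν * R / (J + K))) with ha
  have ha0 : 0 < a := lt_min one_pos (by positivity)
  have ha1 : a ≤ 1 := min_le_left _ _
  have ha2 : a * Λ ≤ c1 * CMR * ν := by
    have h1 : a ≤ c1 * (ν * R / (J + K)) := min_le_right _ _
    calc a * Λ ≤ c1 * (ν * R / (J + K)) * Λ := mul_le_mul_of_nonneg_right h1 hΛ0.le
      _ = c1 * CMR * ν := by rw [hΛ]; field_simp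
  -- the Morrey bound
  have hb : ∀ x t, 0 < t → t ≤ R / 4 →
      ∫ z in U1, en (cw K (cu v) (x - t • z)) ≤ Λ / t ^ 2 := by
    intro x t ht htR
    have h1 := avg_osc (w := cu v) hom (dv_cu hv) hK.le hR0 hR1 hosc ht htR x
    have h2 : ∫ z in U1, en (cw K (cu v) (x - t • z)) ≤ ∫ z in U1, en (cu v (x - t • z)) := by
      have g1 : Continuous fun z : V => x - t • z := by fun_prop
      have g2 : Continuous fun z : V => en (cw K (cu v) (x - t • z)) := (f_cont hw).comp g1
      have g3 : Continuous fun z : V => en (cu v (x - t • z)) := (f_cont hom).comp g1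
      exact setIntegral_mono (int_U1 g2) (int_U1 g3) fun z => Real.sqrt_le_sqrt (rsq_cw_le K _)
    refine h2.trans (h1.trans ?_)
    refine div_le_div_of_nonneg_right ?_ (by positivity)
    rw [hΛ]
    refine div_le_div_of_nonneg_right ?_ hR0.le
    exact mul_le_mul_of_nonneg_left (by linarith) hCM.le
  -- the angle
  have hang : ∀ x y, en (x - y) ≤ η / 4 → en (crossProduct (cw K (cu v) x) (cw K (cu v) y))
      ≤ a ^ 3 * (en (cw K (cu v) x) * en (cw K (cu v) y)) := by
    intro x y hxy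
    have h0 : 0 ≤ en (cw K (cu v) x) * en (cw K (cu v) y) :=
      mul_nonneg (en_nonneg _) (en_nonneg _)
    rcases min_cases 1 (c1 * (ν * R / (J + K))) with h | h
    · have e1 : a = 1 := by rw [ha]; exact h.1
      rw [e1, one_pow, one_mul]
      exact en_cross_le _ _
    · have e1 : a = c1 * (ν * R / (J + K)) := by rw [ha]; exact h.1
      have h2 : c0 * (ν * R / (J + K)) ^ 3 ≤ a ^ 3 := by
        rw [e1, mul_pow]
        exact mul_le_mul_of_nonneg_right (min_le_right _ _) (by positivity)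
      have h3 := cw_ang hK (mul_nonneg c0_pos.le (by positivity)) hosc2 x y (by linarith)
      exact h3.trans (mul_le_mul_of_nonneg_right h2 h0)
  have hr1 : ∫ x in cube, rsq (cw K (cu v) x) ≤ 2 * enstrophy v := by
    refine le_trans ?_ (int_rsq_cu hv)
    exact setIntegral_mono (sp_rsq hw).int (sp_rsq hom).int fun x => rsq_cw_le K x
  set Y := ∫ x in cube, rsq (cw K (cu v) x) with hY
  have hY0 : 0 ≤ Y := integral_nonneg fun x => rsq_nonneg _
  set G := ∫ x in cube, G2 (cw K (cu v)) x with hG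
  have hG0 : 0 ≤ G := integral_nonneg fun x => G2_nonneg _ _
  have h1 := prod_small (v := v) (w := cw K (cu v)) (l := fun x => cu v x - cw K (cu v) x)
    (a := a) (T := R / 4) (ρ := η / 4) (Y := Y) (L := 2 * K) (Λ := Λ) hv hw hl hdiv
    (fun x => by simp) (fun x i => cw_diff hK x i) ha0 ha1 (by linarith) (by positivity)
    (by linarith) hY hΛ0 hb hang
  rw [← hG] at h1
  have h2 : G ≤ AA * (6 * palin v) := by
    have h3 : G ≤ ∫ x in cube, AA * G2 (cu v) x :=
      setIntegral_mono (integrableOn_cube (G2_cont hw))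
        (integrableOn_cube (continuous_const.mul (G2_cont hom))) fun x => G2_cw_le hom hK x
    rw [integral_const_mul] at h3
    exact h3.trans (mul_le_mul_of_nonneg_left (int_G2_cu hv) hAA.le)
  have h6 := abs_le.1 (Nw_diff hv hK)
  have h7 := abs_le.1 h1
  have h8 := cub_eq_Nw hv hdiv
  clear_value G Y
  set Q : ℝ := (R * η ^ 2)⁻¹ with hQ
  have hQ0 : 0 < Q := by positivity
  set ε' : ℝ := ν / (24 * AA) with hε'
  have hε'0 : 0 < ε' := by positivity
  set P : ℝ := 36 * BB * vU * (2 * K) with hP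
  have hP0 : 0 ≤ P := by positivity
  -- the first term
  have t1 : CP * (a * Λ * (3 * CS * G + Y / (η / 4) ^ 2))
      ≤ ν / 4 * palin v + 16 * CP * (CMR * (J + K)) * Q * Y := by
    have a1 : CP * (a * Λ * (3 * CS * G)) ≤ ν / 4 * palin v := by
      have b1 : CP * (a * Λ * (3 * CS * G)) ≤ CP * (c1 * CMR * ν * (3 * CS * (AA * (6 * palin v)))) := by
        refine mul_le_mul_of_nonneg_left (mul_le_mul ha2 (mul_le_mul_of_nonneg_left h2
          (by positivity)) (by positivity) (by positivity)) hCP.le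
      refine b1.trans ?_
      have b2 : CP * (c1 * CMR * ν * (3 * CS * (AA * (6 * palin v))))
          = ν / 4 * palin v * (CS / (CS + 1)) := by
        unfold c1
        field_simp
        ring
      rw [b2]
      refine mul_le_of_le_one_right (by positivity) ?_
      rw [div_le_one (by positivity)]
      linarith
    have a2 : CP * (a * Λ * (Y / (η / 4) ^ 2)) ≤ 16 * CP * (CMR * (J + K)) * Q * Y := by
      have b1 : a * Λ ≤ Λ := mul_le_of_le_one_left hΛ0.le ha1
      have b2 : 0 ≤ Y / (η / 4) ^ 2 := by positivity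
      have b3 : CP * (a * Λ * (Y / (η / 4) ^ 2)) ≤ CP * (Λ * (Y / (η / 4) ^ 2)) :=
        mul_le_mul_of_nonneg_left (mul_le_mul_of_nonneg_right b1 b2) hCP.le
      refine b3.trans (le_of_eq ?_)
      rw [hΛ, hQ]
      field_simp
      ring
    have e1 : CP * (a * Λ * (3 * CS * G + Y / (η / 4) ^ 2))
        = CP * (a * Λ * (3 * CS * G)) + CP * (a * Λ * (Y / (η / 4) ^ 2)) := by ring
    rw [e1]
    exact add_le_add a1 a2
  -- the second term
  have t2 : 3 * BB * Λ * Y / (η / 4) ^ 2 = 16 * (3 * BB) * (CMR * (J + K)) * Q * Y := by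
    rw [hΛ, hQ]
    field_simp
    ring
  -- the third term
  have t3 : 3 * Real.sqrt (BB * ((R / 4)⁻¹ ^ 3 * (27 * enstrophy v))) * Y
      ≤ (27 * 64 * BB + 27 * BB + 1) * 3 * (Q + enstrophy v) * Y := by
    refine mul_le_mul_of_nonneg_right ?_ hY0
    have b1 : BB * ((R / 4)⁻¹ ^ 3 * (27 * enstrophy v))
        ≤ (27 * 64 * BB * Q) * enstrophy v := by
      have b2 : (R / 4)⁻¹ ^ 3 ≤ 64 * Q := by
        have b3 : (R / 4)⁻¹ ^ 3 = 64 * (R ^ 3)⁻¹ := by
          field_simp
          norm_num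
        rw [b3, hQ]
        refine mul_le_mul_of_nonneg_left ?_ (by norm_num)
        refine inv_anti₀ (by positivity) ?_
        calc R * η ^ 2 ≤ R * R ^ 2 :=
              mul_le_mul_of_nonneg_left (pow_le_pow_left₀ hη.le hηR 2) hR0.le
          _ = R ^ 3 := by ring
      calc BB * ((R / 4)⁻¹ ^ 3 * (27 * enstrophy v))
          ≤ BB * (64 * Q * (27 * enstrophy v)) := by
            refine mul_le_mul_of_nonneg_left (mul_le_mul_of_nonneg_right b2 (by positivity))
              (by linarith)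
        _ = _ := by ring
    have b4 : Real.sqrt (BB * ((R / 4)⁻¹ ^ 3 * (27 * enstrophy v)))
        ≤ 27 * 64 * BB * Q + enstrophy v := by
      rw [Real.sqrt_le_left (by positivity)]
      refine b1.trans ?_
      have : 0 ≤ 27 * 64 * BB * Q := by positivity
      nlinarith [sq_nonneg (27 * 64 * BB * Q), sq_nonneg (enstrophy v),
        mul_nonneg this hy0]
    have b5 : 0 ≤ BB * Q := by positivity
    have b6 : 0 ≤ BB * enstrophy v := by positivity
    nlinarith
  -- the fourth term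
  have t4 : R / 4 * (P * (Real.sqrt G * Real.sqrt Y))
      ≤ ν / 4 * palin v + P ^ 2 / (4 * ε') * Y := by
    have b1 : R / 4 * (P * (Real.sqrt G * Real.sqrt Y)) ≤ P * (Real.sqrt G * Real.sqrt Y) :=
      mul_le_of_le_one_left (by positivity) (by linarith)
    have b2 := young_sqrt (P := P) hG0 hY0 hε'0
    have b3 : ε' * G ≤ ν / 4 * palin v := by
      calc ε' * G ≤ ε' * (AA * (6 * palin v)) := mul_le_mul_of_nonneg_left h2 hε'0.le
        _ = ν / 4 * palin v := by rw [hε']; field_simp; ring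
    linarith
  have t5 : R / 4 * (36 * BB * vU * (2 * K) * (Real.sqrt G * Real.sqrt Y))
      = R / 4 * (P * (Real.sqrt G * Real.sqrt Y)) := rfl
  rw [t5] at h7
  have h9 := h7.2
  set M := 3 * Real.sqrt (BB * ((R / 4)⁻¹ ^ 3 * (27 * enstrophy v))) * Y with hM
  set T1 := CP * (a * Λ * (3 * CS * G + Y / (η / 4) ^ 2)) with hT1
  set T4 := R / 4 * (P * (Real.sqrt G * Real.sqrt Y)) with hT4
  rw [t2] at h9
  have h10 : -(2 * cub (fun i y => v y i)) ≤ 2 * Nw (cw K (cu v)) v + 14 * K * enstrophy v := by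
    linarith [h6.2]
  clear_value M T1 T4 Q ε' P Λ a
  set y := enstrophy v with hy
  clear_value y
  have h11 : -(2 * cub (fun i y => v y i)) ≤ ν * palin v
      + 2 * (16 * CP * (CMR * (J + K)) * Q * Y + 16 * (3 * BB) * (CMR * (J + K)) * Q * Y
        + (27 * 64 * BB + 27 * BB + 1) * 3 * (Q + y) * Y + P ^ 2 / (4 * ε') * Y)
      + 14 * K * y := by
    linarith
  refine h11.trans ?_
  have hD1 : 0 ≤ 16 * (CP + 3 * BB) * (CMR * (J + K)) := by positivity
  have hD2 : 0 ≤ (27 * 64 * BB + 27 * BB + 1) * 3 := by positivity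
  have hD3 : 0 ≤ P ^ 2 / (4 * ε') := by positivity
  have hCl : Clow ν K J = 4 * (16 * (CP + 3 * BB) * (CMR * (J + K))
      + (27 * 64 * BB + 27 * BB + 1) * 3 + P ^ 2 / (4 * ε')) + 14 * K := by
    rw [hP, hε']
    rfl
  rw [hCl]
  set D1 := 16 * (CP + 3 * BB) * (CMR * (J + K)) with hD1d
  set D2 := (27 * 64 * BB + 27 * BB + 1) * 3 with hD2d
  set D3 := P ^ 2 / (4 * ε') with hD3d
  have e1 : 16 * CP * (CMR * (J + K)) * Q * Y + 16 * (3 * BB) * (CMR * (J + K)) * Q * Y
        + D2 * (Q + y) * Y + D3 * Y = (D1 * Q + D2 * (Q + y) + D3) * Y := by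
    rw [hD1d]; ring
  rw [e1]
  clear_value D1 D2 D3
  have h12 : (D1 * Q + D2 * (Q + y) + D3) * Y ≤ (D1 * Q + D2 * (Q + y) + D3) * (2 * y) :=
    mul_le_mul_of_nonneg_left hr1 (by positivity)
  have h13 : (D1 * Q + D2 * (Q + y) + D3) * (2 * y) * 2 + 14 * K * y
      ≤ (4 * (D1 + D2 + D3) + 14 * K) * (1 + Q + y) * y := by
    have f1 : 0 ≤ D1 * y := by positivity
    have f2 : 0 ≤ D2 * y := by positivity
    have f3 : 0 ≤ D3 * y := by positivity
    have f4 : 0 ≤ K * y := by positivity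
    have g1 : 0 ≤ D1 * y * y := by positivity
    have g2 : 0 ≤ D3 * y * Q := by positivity
    have g3 : 0 ≤ D3 * y * y := by positivity
    have g4 : 0 ≤ K * y * Q := by positivity
    have g5 : 0 ≤ K * y * y := by positivity
    have e2 : (4 * (D1 + D2 + D3) + 14 * K) * (1 + Q + y) * y
        - ((D1 * Q + D2 * (Q + y) + D3) * (2 * y) * 2 + 14 * K * y)
        = 4 * (D1 * y) + 4 * (D2 * y) + 4 * (D1 * y * y) + 4 * (D3 * y * Q) + 4 * (D3 * y * y)
          + 14 * (K * y * Q) + 14 * (K * y * y) := by ring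
    have e3 : 0 ≤ 4 * (D1 * y) + 4 * (D2 * y) + 4 * (D1 * y * y) + 4 * (D3 * y * Q)
        + 4 * (D3 * y * y) + 14 * (K * y * Q) + 14 * (K * y * y) := by positivity
    linarith
  linarith

end Pool.Agent.R211.CD
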