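import Pool.Agent.R210.M4

/-!
The critical Morrey bound from a cone condition: the flux through a small disc is controlled at a
large distance, without any modulus of continuity of the direction.
-/

open MeasureTheory Set Metric Filter Topology
open scoped ContDiff RealInnerProductSpace
open Pool.Agent.R210

namespace Pool.Agent.R211.CD

/-- The primitive of the profile. -/
noncomputable def gg (q : ℝ) : ℝ := ∫ s in (0 : ℝ)..q, hh (4 * s ^ 2)

theorem gp_smooth : ContDiff ℝ ∞ fun s : ℝ => hh (4 * s ^ 2) :=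
  hh_smooth.comp (contDiff_const.mul (contDiff_id.pow 2))

theorem gg_hasDerivAt (q : ℝ) : HasDerivAt gg (hh (4 * q ^ 2)) q :=
  (gp_smooth.continuous.integral_hasStrictDerivAt 0 q).hasDerivAt

theorem gg_smooth : ContDiff ℝ ∞ gg := by
  rw [contDiff_infty_iff_deriv]
  refine ⟨fun s => (gg_hasDerivAt s).differentiableAt, ?_⟩
  have : deriv gg = fun q => hh (4 * q ^ 2) := funext fun q => (gg_hasDerivAt q).deriv
  rw [this]
  exact gp_smooth

theorem gg_abs (q : ℝ) : |gg q| ≤ |q| := by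
  unfold gg
  rw [← Real.norm_eq_abs]
  refine (intervalIntegral.norm_integral_le_of_norm_le_const (C := 1) fun s _ => ?_).trans
    (le_of_eq ?_)
  · rw [Real.norm_eq_abs, abs_of_nonneg (hh_nonneg _)]
    exact hh_le_one _
  · rw [one_mul, sub_zero]

/-- The regularized distance. -/
noncomputable def DD (ρ : ℝ) (z : E) : ℝ := Real.sqrt (‖z‖ ^ 2 + ρ ^ 2)

/-- The sine of the elevation. -/
noncomputable def qq (ρ : ℝ) (e z : E) : ℝ := ⟪e, z⟫ * (DD ρ z)⁻¹

/-- The derivative of the sine of the elevation. -/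
noncomputable def dq (ρ : ℝ) (e z v : E) : ℝ := ⟪e, v⟫ / DD ρ z - ⟪e, z⟫ * ⟪z, v⟫ / DD ρ z ^ 3

section

variable {ρ : ℝ} (hρ : 0 < ρ)

include hρ in
theorem DD_arg (z : E) : 0 < ‖z‖ ^ 2 + ρ ^ 2 := by positivity

include hρ in
theorem DD_pos (z : E) : 0 < DD ρ z := Real.sqrt_pos.2 (DD_arg hρ z)

include hρ in
theorem DD_sq (z : E) : DD ρ z ^ 2 = ‖z‖ ^ 2 + ρ ^ 2 := Real.sq_sqrt (DD_arg hρ z).le

include hρ in
theorem qq_smooth (x e : E) : ContDiff ℝ ∞ fun y => qq ρ e (y - x) := by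
  unfold qq
  refine (contDiff_const.inner ℝ (contDiff_id.sub contDiff_const)).mul ?_
  refine ContDiff.inv ?_ fun y => (DD_pos hρ _).ne'
  unfold DD
  refine ContDiff.sqrt ?_ fun y => (DD_arg hρ _).ne'
  exact ((contDiff_norm_sq ℝ).comp (contDiff_id.sub contDiff_const)).add contDiff_const

include hρ in
theorem qq_hasFDerivAt (x e y : E) : ∃ L : E →L[ℝ] ℝ,
    HasFDerivAt (fun y => qq ρ e (y - x)) L y ∧ ∀ v, L v = dq ρ e (y - x) v := by
  have hD := DD_pos hρ (y - x)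
  have h1 : HasFDerivAt (fun y : E => ⟪e, y - x⟫) (innerSL ℝ e) y := by
    have := (innerSL ℝ e).hasFDerivAt (x := y - x)
    exact this.comp y ((hasFDerivAt_id y).sub_const x)
  have h2 : HasFDerivAt (fun y : E => ‖y - x‖ ^ 2 + ρ ^ 2) (2 • (innerSL ℝ (y - x))) y := by
    have := (hasStrictFDerivAt_norm_sq (y - x)).hasFDerivAt
    exact (this.comp y ((hasFDerivAt_id y).sub_const x)).add_const _
  have h3 : HasDerivAt (fun s : ℝ => (Real.sqrt s)⁻¹)
      (-(1 / (2 * DD ρ (y - x))) / DD ρ (y - x) ^ 2) (‖y - x‖ ^ 2 + ρ ^ 2) :=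
    (Real.hasDerivAt_sqrt (DD_arg hρ _).ne').inv hD.ne'
  have h4 := h3.comp_hasFDerivAt y h2
  have h5 := h1.mul h4
  refine ⟨_, h5, fun v => ?_⟩
  unfold dq
  simp only [add_apply, smul_apply, innerSL_apply_apply, smul_eq_mul, nsmul_eq_mul,
    Function.comp_apply]
  have e1 : Real.sqrt (‖y - x‖ ^ 2 + ρ ^ 2) = DD ρ (y - x) := rfl
  rw [e1]
  field_simp
  push_cast
  ring

include hρ in
theorem inner_le_DD {e : E} (he : ‖e‖ = 1) (z : E) : ⟪e, z⟫ ^ 2 ≤ DD ρ z ^ 2 := by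
  have h1 := abs_real_inner_le_norm e z
  rw [he, one_mul] at h1
  have h2 := pow_le_pow_left₀ (abs_nonneg _) h1 2
  rw [sq_abs] at h2
  rw [DD_sq hρ]
  nlinarith [sq_nonneg ρ]

include hρ in
theorem qq_sq (e z : E) : qq ρ e z ^ 2 = ⟪e, z⟫ ^ 2 / DD ρ z ^ 2 := by
  unfold qq
  rw [mul_pow, inv_pow]
  rfl

include hρ in
theorem qq_le {e : E} (he : ‖e‖ = 1) (z : E) : |qq ρ e z| ≤ 1 := by
  rw [← sq_le_one_iff_abs_le_one, qq_sq hρ, div_le_one (pow_pos (DD_pos hρ z) 2)]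
  exact inner_le_DD hρ he z

include hρ in
theorem dq_self {e : E} (he : ‖e‖ = 1) (z : E) : dq ρ e z e = (1 - qq ρ e z ^ 2) / DD ρ z := by
  have hD := DD_pos hρ z
  have h1 : ⟪e, e⟫ = 1 := by rw [real_inner_self_eq_norm_sq, he]; norm_num
  rw [qq_sq hρ]
  unfold dq
  rw [h1, real_inner_comm z e]
  field_simp

include hρ in
theorem dq_le {e : E} (he : ‖e‖ = 1) {z : E} (hq : 4 * qq ρ e z ^ 2 < 1) (v : E) :
    |dq ρ e z v| ≤ 2 * dq ρ e z e * ‖v‖ := by
  have hD := DD_pos hρ z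
  set D := DD ρ z with hDd
  set q2 := qq ρ e z ^ 2 with hq2
  have hq0 : 0 ≤ q2 := sq_nonneg _
  have e1 : dq ρ e z v = ⟪D⁻¹ • e - (⟪e, z⟫ / D ^ 3) • z, v⟫ := by
    unfold dq
    rw [inner_sub_left, real_inner_smul_left, real_inner_smul_left, ← hDd]
    field_simp
  have e2 : ‖D⁻¹ • e - (⟪e, z⟫ / D ^ 3) • z‖ ^ 2
      = 1 / D ^ 2 - 2 * ⟪e, z⟫ ^ 2 / D ^ 4 + ⟪e, z⟫ ^ 2 * ‖z‖ ^ 2 / D ^ 6 := by
    rw [norm_sub_sq_real, norm_smul, norm_smul, real_inner_smul_left, real_inner_smul_right, he,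
      Real.norm_eq_abs, Real.norm_eq_abs, mul_pow, mul_pow, sq_abs, sq_abs]
    field_simp
  have e3 : ‖D⁻¹ • e - (⟪e, z⟫ / D ^ 3) • z‖ ^ 2 ≤ (1 - q2) / D ^ 2 := by
    rw [e2, hq2, qq_sq hρ, ← hDd]
    have h1 : ‖z‖ ^ 2 ≤ D ^ 2 := by
      rw [hDd, DD_sq hρ]
      nlinarith [sq_nonneg ρ]
    have h2 : ⟪e, z⟫ ^ 2 * ‖z‖ ^ 2 / D ^ 6 ≤ ⟪e, z⟫ ^ 2 * D ^ 2 / D ^ 6 :=
      div_le_div_of_nonneg_right (mul_le_mul_of_nonneg_left h1 (sq_nonneg _)) (by positivity)
    have h3 : ⟪e, z⟫ ^ 2 * D ^ 2 / D ^ 6 = ⟪e, z⟫ ^ 2 / D ^ 4 := by field_simp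
    have h4 : (1 - ⟪e, z⟫ ^ 2 / D ^ 2) / D ^ 2 = 1 / D ^ 2 - ⟪e, z⟫ ^ 2 / D ^ 4 := by
      field_simp
    rw [h4]
    have h5 : 2 * ⟪e, z⟫ ^ 2 / D ^ 4 = 2 * (⟪e, z⟫ ^ 2 / D ^ 4) := by ring
    linarith
  have h1q : 0 < 1 - q2 := by linarith
  have e4 : ‖D⁻¹ • e - (⟪e, z⟫ / D ^ 3) • z‖ ≤ 2 * ((1 - q2) / D) := by
    refine le_of_sq_le_sq (e3.trans ?_) (by positivity)
    have : (2 * ((1 - q2) / D)) ^ 2 = (4 * (1 - q2)) * ((1 - q2) / D ^ 2) := by
      field_simp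
      norm_num
    rw [this]
    refine le_mul_of_one_le_left (by positivity) (by linarith)
  rw [dq_self hρ he, e1]
  refine (abs_real_inner_le_norm _ _).trans ?_
  exact mul_le_mul_of_nonneg_right e4 (norm_nonneg v)

/-- The test function. -/
noncomputable def tp (R ρ : ℝ) (x e y : E) : ℝ := gg (qq ρ e (y - x)) * ze R (y - x)

include hρ in
theorem tp_smooth (R : ℝ) (x e : E) : ContDiff ℝ ∞ (tp R ρ x e) :=
  (gg_smooth.comp (qq_smooth hρ x e)).mul ((ze_smooth R).comp (contDiff_id.sub contDiff_const))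

theorem tp_supp {R : ℝ} (hR : 0 < R) (ρ : ℝ) (x e : E) :
    Function.support (tp R ρ x e) ⊆ ball x R := by
  intro y hy
  by_contra hc
  refine hy ?_
  simp only [tp]
  rw [ze_sub_zero hR hc, mul_zero]

theorem tp_compact {R : ℝ} (hR : 0 < R) (ρ : ℝ) (x e : E) : HasCompactSupport (tp R ρ x e) :=
  HasCompactSupport.of_support_subset_isCompact (isCompact_closedBall x R)
    ((tp_supp hR ρ x e).trans ball_subset_closedBall)

/-- The main part of the derivative of the test function. -/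
noncomputable def Ap (R ρ : ℝ) (x e y : E) : ℝ :=
  ze R (y - x) * (hh (4 * qq ρ e (y - x) ^ 2) * dq ρ e (y - x) e)

/-- The derivative of the cutoff. -/
noncomputable def dZ (R : ℝ) (x y v : E) : ℝ :=
  deriv hh (‖y - x‖ ^ 2 / R ^ 2) * (2 * ⟪y - x, v⟫ / R ^ 2)

include hρ in
theorem tp_fderiv (R : ℝ) (x e y v : E) : fderiv ℝ (tp R ρ x e) y v
    = gg (qq ρ e (y - x)) * dZ R x y v
      + ze R (y - x) * (hh (4 * qq ρ e (y - x) ^ 2) * dq ρ e (y - x) v) := by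
  obtain ⟨L, hL, hLv⟩ := qq_hasFDerivAt hρ x e y
  have h1 := (gg_hasDerivAt (qq ρ e (y - x))).comp_hasFDerivAt y hL
  have h2 : HasFDerivAt (fun y : E => ‖y - x‖ ^ 2) (2 • (innerSL ℝ (y - x))) y := by
    have := (hasStrictFDerivAt_norm_sq (y - x)).hasFDerivAt
    exact this.comp y ((hasFDerivAt_id y).sub_const x)
  have h3 : HasFDerivAt (fun y : E => ‖y - x‖ ^ 2 / R ^ 2)
      ((R ^ 2)⁻¹ • (2 • (innerSL ℝ (y - x)))) y := by
    have := h2.mul_const ((R ^ 2)⁻¹)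
    exact this
  have h4 : HasFDerivAt (fun y : E => ze R (y - x))
      (deriv hh (‖y - x‖ ^ 2 / R ^ 2) • ((R ^ 2)⁻¹ • (2 • (innerSL ℝ (y - x))))) y :=
    (hh_hasDerivAt _).comp_hasFDerivAt y h3
  have h5 := (h1.mul h4).fderiv
  have h6 : fderiv ℝ (tp R ρ x e) y = _ := h5
  rw [h6]
  unfold dZ
  simp only [add_apply, smul_apply, innerSL_apply_apply, smul_eq_mul, nsmul_eq_mul,
    Function.comp_apply, hLv]
  push_cast
  ring

theorem dZ_le {R : ℝ} (hR : 0 < R) (x y v : E) : |dZ R x y v| ≤ 2 * HB / R * ‖v‖ := by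
  have hB := one_le_HB
  unfold dZ
  rcases le_or_gt R ‖y - x‖ with h | h
  · rw [dhh_zero (ze_arg hR h)]
    simp only [zero_mul, abs_zero]
    positivity
  · have a2 : |2 * ⟪y - x, v⟫ / R ^ 2| ≤ 2 * ‖v‖ / R := by
      have h2 := abs_real_inner_le_norm (y - x) v
      rw [abs_div, abs_mul, abs_of_pos (by positivity : 0 < R ^ 2), abs_two,
        div_le_div_iff₀ (by positivity) hR]
      have h4 : ‖y - x‖ * ‖v‖ ≤ R * ‖v‖ := mul_le_mul_of_nonneg_right h.le (norm_nonneg _)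
      calc 2 * |⟪y - x, v⟫| * R ≤ 2 * (R * ‖v‖) * R := by
            refine mul_le_mul_of_nonneg_right ?_ hR.le
            linarith
        _ = 2 * ‖v‖ * R ^ 2 := by ring
    rw [abs_mul]
    have a3 : |deriv hh (‖y - x‖ ^ 2 / R ^ 2)| ≤ HB := dhh_le (by positivity)
    calc |deriv hh (‖y - x‖ ^ 2 / R ^ 2)| * |2 * ⟪y - x, v⟫ / R ^ 2|
        ≤ HB * (2 * ‖v‖ / R) := mul_le_mul a3 a2 (abs_nonneg _) (by linarith)
      _ = 2 * HB / R * ‖v‖ := by ring

theorem dZ_zero {R : ℝ} (hR : 0 < R) {x y : E} (h : y ∉ ball x R) (v : E) : dZ R x y v = 0 := by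
  unfold dZ
  have h1 : R ≤ ‖y - x‖ := by
    rw [mem_ball, dist_eq_norm] at h
    exact not_lt.1 h
  rw [dhh_zero (ze_arg hR h1), zero_mul]

include hρ in
theorem Ap_nonneg (R : ℝ) (x : E) {e : E} (he : ‖e‖ = 1) (y : E) : 0 ≤ Ap R ρ x e y := by
  unfold Ap
  refine mul_nonneg (ze_nonneg _ _) (mul_nonneg (hh_nonneg _) ?_)
  rw [dq_self hρ he]
  refine div_nonneg ?_ (DD_pos hρ _).le
  have := qq_le hρ he (y - x)
  rw [← sq_le_one_iff_abs_le_one] at this
  linarith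

include hρ in
theorem tp_fderiv_e (R : ℝ) (x e y : E) : fderiv ℝ (tp R ρ x e) y e
    = gg (qq ρ e (y - x)) * dZ R x y e + Ap R ρ x e y := tp_fderiv hρ R x e y e

include hρ in
theorem gg_qq_le {e : E} (he : ‖e‖ = 1) (z : E) : |gg (qq ρ e z)| ≤ 1 :=
  (gg_abs _).trans (qq_le hρ he z)

include hρ in
theorem tp_fderiv_le {R : ℝ} (hR : 0 < R) (x : E) {e : E} (he : ‖e‖ = 1) (y v : E) :
    |fderiv ℝ (tp R ρ x e) y v| ≤ (2 * Ap R ρ x e y + 2 * HB / R) * ‖v‖ := by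
  have hB := one_le_HB
  rw [tp_fderiv hρ]
  have h1 : |gg (qq ρ e (y - x)) * dZ R x y v| ≤ 2 * HB / R * ‖v‖ := by
    rw [abs_mul]
    have h2 := dZ_le hR x y v
    calc |gg (qq ρ e (y - x))| * |dZ R x y v| ≤ 1 * (2 * HB / R * ‖v‖) :=
          mul_le_mul (gg_qq_le hρ he _) h2 (abs_nonneg _) zero_le_one
      _ = _ := one_mul _
  have h2 : |ze R (y - x) * (hh (4 * qq ρ e (y - x) ^ 2) * dq ρ e (y - x) v)|
      ≤ 2 * Ap R ρ x e y * ‖v‖ := by
    rcases le_or_gt 1 (4 * qq ρ e (y - x) ^ 2) with h | h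
    · have := Ap_nonneg hρ R x he y
      rw [hh_zero h, zero_mul, mul_zero, abs_zero]
      positivity
    · rw [abs_mul, abs_mul, abs_of_nonneg (ze_nonneg _ _), abs_of_nonneg (hh_nonneg _)]
      have h3 := dq_le hρ he h v
      unfold Ap
      calc ze R (y - x) * (hh (4 * qq ρ e (y - x) ^ 2) * |dq ρ e (y - x) v|)
          ≤ ze R (y - x) * (hh (4 * qq ρ e (y - x) ^ 2) * (2 * dq ρ e (y - x) e * ‖v‖)) :=
            mul_le_mul_of_nonneg_left (mul_le_mul_of_nonneg_left h3 (hh_nonneg _))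
              (ze_nonneg _ _)
        _ = _ := by ring
  refine (abs_add_le _ _).trans ?_
  linarith

include hρ in
theorem Ap_cont (R : ℝ) (x e : E) : Continuous (Ap R ρ x e) := by
  have hz : Continuous fun y : E => y - x := continuous_id.sub continuous_const
  have h1 : Continuous fun y => DD ρ (y - x) := by
    unfold DD
    exact Real.continuous_sqrt.comp ((hz.norm.pow 2).add continuous_const)
  have h2 : Continuous fun y => dq ρ e (y - x) e := by
    unfold dq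
    refine Continuous.sub (Continuous.div continuous_const h1 fun y => (DD_pos hρ _).ne')
      (Continuous.div ?_ (h1.pow 3) fun y => (pow_pos (DD_pos hρ _) 3).ne')
    exact (continuous_const.inner hz).mul (hz.inner continuous_const)
  unfold Ap
  exact ((ze_smooth R).continuous.comp hz).mul ((hh_smooth.continuous.comp
    (continuous_const.mul ((qq_smooth hρ x e).continuous.pow 2))).mul h2)

include hρ in
theorem Ap_zero {R : ℝ} (hR : 0 < R) {x e y : E} (h : y ∉ ball x R) : Ap R ρ x e y = 0 := by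
  unfold Ap
  rw [ze_sub_zero hR h, zero_mul]

include hρ in
/-- The lower bound near the centre. -/
theorem Ap_ge {R : ℝ} (hR : 0 < R) (hρR : ρ ≤ 2 * R) (x : E) {e : E} (he : ‖e‖ = 1) {y : E}
    (hy : ‖y - x‖ ≤ ρ / 4) : hh (1 / 4) ^ 2 * (3 / (8 * ρ)) ≤ Ap R ρ x e y := by
  have hD := DD_pos hρ (y - x)
  have hh0 : 0 < hh (1 / 4) := hh_pos (by norm_num)
  have hD2 := DD_sq hρ (y - x)
  have hn := norm_nonneg (y - x)
  have h1 : DD ρ (y - x) ≤ 2 * ρ := by
    refine le_of_sq_le_sq ?_ (by positivity)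
    rw [hD2]
    nlinarith
  have h2 : ρ ≤ DD ρ (y - x) := by
    refine le_of_sq_le_sq ?_ hD.le
    rw [hD2]
    nlinarith
  have h3 : qq ρ e (y - x) ^ 2 ≤ 1 / 16 := by
    rw [qq_sq hρ, div_le_iff₀ (by positivity)]
    have a1 := abs_real_inner_le_norm e (y - x)
    rw [he, one_mul] at a1
    have a2 := pow_le_pow_left₀ (abs_nonneg _) a1 2
    rw [sq_abs] at a2
    rw [hD2]
    nlinarith
  have h4 : hh (1 / 4) ≤ ze R (y - x) := ze_ge hR (by linarith)
  have h5 : hh (1 / 4) ≤ hh (4 * qq ρ e (y - x) ^ 2) := hh_anti (by linarith)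
  have h6 : 3 / (8 * ρ) ≤ dq ρ e (y - x) e := by
    rw [dq_self hρ he, div_le_div_iff₀ (by positivity) hD]
    nlinarith
  unfold Ap
  have h7 : 0 ≤ 3 / (8 * ρ) := by positivity
  calc hh (1 / 4) ^ 2 * (3 / (8 * ρ)) = hh (1 / 4) * (hh (1 / 4) * (3 / (8 * ρ))) := by ring
    _ ≤ _ := mul_le_mul h4 (mul_le_mul h5 h6 h7 (hh_nonneg _)) (by positivity) (ze_nonneg _ _)

end

/-- The constant of the Morrey bound. -/
noncomputable def CMo : ℝ := 86 * HB * (1 + v3) / hh (1 / 4) ^ 2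

theorem CMo_pos : 0 < CMo := by
  have h1 := one_le_HB
  have h2 := v3_pos
  have h3 : 0 < hh (1 / 4) := hh_pos (by norm_num)
  unfold CMo
  positivity

/-- The final computation. -/
theorem morrey_alg {X A J I B v a r ρ κ R : ℝ} (hR : 0 < R) (hr : 0 < r) (hκ : 0 ≤ κ)
    (hB : 0 ≤ B) (hv : 0 < v) (ha : 0 < a) (hI0 : 0 ≤ I) (h2 : A ≤ 2 * B / R * (v * R ^ 3))
    (h3 : X ≤ 1 / 5 * X + 2 * κ * A + 11 / 5 * (B / R) * I + 2 * κ * (B / R) * (v * R ^ 3) + 0
      + 2 * (B / R) * I)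
    (h4 : a ^ 2 * (3 / (8 * ρ)) * J ≤ X) (hρ : ρ = 4 * r) :
    J ≤ 86 * B * (1 + v) / a ^ 2 * r * (I / R + κ * R ^ 2) := by
  have h5 : X ≤ 8 * B * (1 + v) * (I / R + κ * R ^ 2) := by
    have a1 : 2 * κ * A ≤ 2 * κ * (2 * B / R * (v * R ^ 3)) :=
      mul_le_mul_of_nonneg_left h2 (by positivity)
    have e1 : 2 * κ * (2 * B / R * (v * R ^ 3)) = 4 * (B * v * (κ * R ^ 2)) := by
      field_simp
      ring
    have e2 : 2 * κ * (B / R) * (v * R ^ 3) = 2 * (B * v * (κ * R ^ 2)) := by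
      field_simp
    have e3 : 11 / 5 * (B / R) * I = 11 / 5 * (B * (I / R)) := by ring
    have e4 : 2 * (B / R) * I = 2 * (B * (I / R)) := by ring
    rw [e2, e3, e4] at h3
    rw [e1] at a1
    have b1 : 0 ≤ B * (I / R) := by positivity
    have b2 : 0 ≤ B * v * (κ * R ^ 2) := by positivity
    have b3 : 0 ≤ B * v * (I / R) := by positivity
    have b4 : 0 ≤ B * (κ * R ^ 2) := by positivity
    have e5 : 8 * B * (1 + v) * (I / R + κ * R ^ 2) = 8 * (B * (I / R))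
      + 8 * (B * v * (I / R)) + 8 * (B * (κ * R ^ 2)) + 8 * (B * v * (κ * R ^ 2)) := by ring
    rw [e5]
    linarith
  have h6 := h4.trans h5
  subst hρ
  have h7 : J = (8 * (4 * r) / 3) * (a ^ 2 * (3 / (8 * (4 * r))) * J) / a ^ 2 := by
    field_simp
  have h8 : (8 * (4 * r) / 3) * (a ^ 2 * (3 / (8 * (4 * r))) * J) / a ^ 2
      ≤ (8 * (4 * r) / 3) * (8 * B * (1 + v) * (I / R + κ * R ^ 2)) / a ^ 2 :=
    div_le_div_of_nonneg_right (mul_le_mul_of_nonneg_left h6 (by positivity)) (by positivity)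
  have b5 : 0 ≤ B * (1 + v) / a ^ 2 * r * (I / R + κ * R ^ 2) := by positivity
  have e5 : (8 * (4 * r) / 3) * (8 * B * (1 + v) * (I / R + κ * R ^ 2)) / a ^ 2
      = 256 / 3 * (B * (1 + v) / a ^ 2 * r * (I / R + κ * R ^ 2)) := by ring
  have e6 : 86 * B * (1 + v) / a ^ 2 * r * (I / R + κ * R ^ 2)
      = 86 * (B * (1 + v) / a ^ 2 * r * (I / R + κ * R ^ 2)) := by ring
  rw [e6]
  calc J = _ := h7
    _ ≤ _ := h8
    _ = _ := e5
    _ ≤ _ := by linarith

/-- **The Morrey bound.** -/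
theorem morrey_ball {w : E → E} (hw : ContDiff ℝ 1 w) (hdiv : ∀ y, dvE w y = 0) {x e : E}
    {R κ : ℝ} (hR : 0 < R) (hκ : 0 ≤ κ) (he : ‖e‖ = 1)
    (hpt : ∀ y ∈ ball x R, ‖‖w y‖ • e - w y‖ ≤ 1 / 10 * ‖w y‖ + κ) {r : ℝ} (hr : 0 < r)
    (hrR : r ≤ R / 2) :
    ∫ y in ball x r, ‖w y‖ ≤ CMo * r * ((∫ y in ball x R, ‖w y‖) / R + κ * R ^ 2) := by
  have hB := one_le_HB
  have hv := v3_pos
  have hh0 : 0 < hh (1 / 4) := hh_pos (by norm_num)
  set ρ : ℝ := 4 * r with hρd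
  have hρ : 0 < ρ := by positivity
  have hρR : ρ ≤ 2 * R := by rw [hρd]; linarith
  set φ := tp R ρ x e with hφ
  have hφs : ContDiff ℝ ∞ φ := tp_smooth hρ R x e
  have hφc : HasCompactSupport φ := tp_compact hR ρ x e
  set I := ∫ y in ball x R, ‖w y‖ with hI
  have hI0 : 0 ≤ I := integral_nonneg fun y => norm_nonneg _
  have hfd0 : ∀ y, y ∉ ball x R → ∀ v, fderiv ℝ φ y v = 0 := by
    intro y hy v
    rw [hφ, tp_fderiv hρ, dZ_zero hR hy, ze_sub_zero hR hy]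
    ring
  have hvol : ∫ _ in ball x R, (1 : ℝ) = v3 * R ^ 3 := by
    rw [setIntegral_const, smul_eq_mul, mul_one, ← vol_ball x hR.le]
    rfl
  have hfdc : Continuous fun y => fderiv ℝ φ y := hφs.continuous_fderiv (by norm_num)
  -- the two identities
  have h0 : ∫ y in ball x R, fderiv ℝ φ y (w y) = 0 := by
    rw [setIntegral_eq_integral_of_forall_compl_eq_zero fun y hy => hfd0 y hy _]
    exact int_dv_zero hw hdiv hφs hφc
  have h1 : ∫ y in ball x R, fderiv ℝ φ y e = 0 := by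
    rw [setIntegral_eq_integral_of_forall_compl_eq_zero fun y hy => hfd0 y hy _]
    refine int_dv_zero (w := fun _ => e) contDiff_const (fun y => ?_) hφs hφc
    unfold dvE
    simp
  have hApc := Ap_cont hρ R x e
  have hAp0 := Ap_nonneg hρ R x he
  have hwc := hw.continuous.norm
  have iA : IntegrableOn (Ap R ρ x e) (ball x R) := intOn_ball hApc x R
  have iW : IntegrableOn (fun y => ‖w y‖) (ball x R) := intOn_ball hwc x R
  have iWA : IntegrableOn (fun y => ‖w y‖ * Ap R ρ x e y) (ball x R) :=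
    intOn_ball (hwc.mul hApc) x R
  have i1 : IntegrableOn (fun _ : E => (1 : ℝ)) (ball x R) :=
    integrableOn_const (measure_ball_lt_top).ne
  have ie : IntegrableOn (fun y => fderiv ℝ φ y e) (ball x R) :=
    intOn_ball (hfdc.clm_apply continuous_const) x R
  have iw : IntegrableOn (fun y => fderiv ℝ φ y (w y)) (ball x R) :=
    intOn_ball (hfdc.clm_apply hw.continuous) x R
  -- the integral of the main part
  have h2 : ∫ y in ball x R, Ap R ρ x e y ≤ 2 * HB / R * (v3 * R ^ 3) := by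
    have h3 : ∫ y in ball x R, Ap R ρ x e y
        ≤ ∫ y in ball x R, (2 * HB / R * 1 + fderiv ℝ φ y e) := by
      refine setIntegral_mono iA ((i1.const_mul _).add ie) fun y => ?_
      show Ap R ρ x e y ≤ 2 * HB / R * 1 + fderiv ℝ φ y e
      rw [hφ, tp_fderiv_e hρ]
      have h4 := dZ_le hR x y e
      rw [he] at h4
      have h5 : |gg (qq ρ e (y - x)) * dZ R x y e| ≤ 1 * (2 * HB / R * 1) := by
        rw [abs_mul]
        exact mul_le_mul (gg_qq_le hρ he _) h4 (abs_nonneg _) zero_le_one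
      have h6 := (abs_le.1 h5).1
      linarith
    rw [integral_add (i1.const_mul _) ie, integral_const_mul, hvol, h1, add_zero] at h3
    exact h3
  -- the main inequality
  have h3 : ∫ y in ball x R, ‖w y‖ * Ap R ρ x e y
      ≤ ∫ y in ball x R, (1 / 5 * (‖w y‖ * Ap R ρ x e y) + 2 * κ * Ap R ρ x e y
        + 11 / 5 * (HB / R) * ‖w y‖ + 2 * κ * (HB / R) * 1 + fderiv ℝ φ y (w y)
        + 2 * (HB / R) * ‖w y‖) := by
    refine setIntegral_mono_on iWA (((((((iWA.const_mul _).add (iA.const_mul _)).add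
      (iW.const_mul _)).add (i1.const_mul _)).add iw)).add (iW.const_mul _)) measurableSet_ball
      fun y hy => ?_
    have a1 := tp_fderiv_le hρ hR x he y (‖w y‖ • e - w y)
    have a2 := hpt y hy
    have hA := hAp0 y
    have hw0 := norm_nonneg (w y)
    have hHR : 0 ≤ HB / R := by positivity
    have a3 : (2 * Ap R ρ x e y + 2 * HB / R) * ‖‖w y‖ • e - w y‖
        ≤ (2 * Ap R ρ x e y + 2 * HB / R) * (1 / 10 * ‖w y‖ + κ) :=
      mul_le_mul_of_nonneg_left a2 (by positivity)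
    have a4 := (abs_le.1 (a1.trans a3)).2
    rw [← hφ, map_sub, map_smul, smul_eq_mul, hφ, tp_fderiv_e hρ, ← hφ] at a4
    have a5 : |gg (qq ρ e (y - x)) * dZ R x y e| ≤ 2 * (HB / R) := by
      have h4 := dZ_le hR x y e
      rw [he] at h4
      rw [abs_mul]
      calc |gg (qq ρ e (y - x))| * |dZ R x y e| ≤ 1 * (2 * HB / R * 1) :=
            mul_le_mul (gg_qq_le hρ he _) h4 (abs_nonneg _) zero_le_one
        _ = 2 * (HB / R) := by ring
    have a6 := (abs_le.1 a5).1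
    have a7 : ‖w y‖ * -(2 * (HB / R)) ≤ ‖w y‖ * (gg (qq ρ e (y - x)) * dZ R x y e) :=
      mul_le_mul_of_nonneg_left a6 hw0
    have e1 : (2 * Ap R ρ x e y + 2 * HB / R) * (1 / 10 * ‖w y‖ + κ)
        = 1 / 5 * (‖w y‖ * Ap R ρ x e y) + 2 * κ * Ap R ρ x e y
          + 1 / 5 * (HB / R) * ‖w y‖ + 2 * κ * (HB / R) := by ring
    rw [e1] at a4
    have a8 : 0 ≤ (HB / R) * ‖w y‖ := by positivity
    have e2 : ‖w y‖ * (gg (qq ρ e (y - x)) * dZ R x y e + Ap R ρ x e y)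
        = ‖w y‖ * (gg (qq ρ e (y - x)) * dZ R x y e) + ‖w y‖ * Ap R ρ x e y := by ring
    have e3 : ‖w y‖ * -(2 * (HB / R)) = -(2 * ((HB / R) * ‖w y‖)) := by ring
    rw [e2] at a4
    rw [e3] at a7
    have e4 : 11 / 5 * (HB / R) * ‖w y‖ = 11 / 5 * ((HB / R) * ‖w y‖) := by ring
    have e5 : 2 * (HB / R) * ‖w y‖ = 2 * ((HB / R) * ‖w y‖) := by ring
    have e6 : 1 / 5 * (HB / R) * ‖w y‖ = 1 / 5 * ((HB / R) * ‖w y‖) := by ring
    rw [e4, e5, mul_one]
    rw [e6] at a4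
    linarith
  have j1 : IntegrableOn (fun y => 1 / 5 * (‖w y‖ * Ap R ρ x e y)) (ball x R) := iWA.const_mul _
  have j2 : IntegrableOn (fun y => 2 * κ * Ap R ρ x e y) (ball x R) := iA.const_mul _
  have j3 : IntegrableOn (fun y => 11 / 5 * (HB / R) * ‖w y‖) (ball x R) := iW.const_mul _
  have j4 : IntegrableOn (fun _ : E => 2 * κ * (HB / R) * 1) (ball x R) := i1.const_mul _
  have j6 : IntegrableOn (fun y => 2 * (HB / R) * ‖w y‖) (ball x R) := iW.const_mul _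
  have s2 : IntegrableOn (fun y => 1 / 5 * (‖w y‖ * Ap R ρ x e y) + 2 * κ * Ap R ρ x e y)
    (ball x R) := j1.add j2
  have s3 : IntegrableOn (fun y => 1 / 5 * (‖w y‖ * Ap R ρ x e y) + 2 * κ * Ap R ρ x e y
    + 11 / 5 * (HB / R) * ‖w y‖) (ball x R) := s2.add j3
  have s4 : IntegrableOn (fun y => 1 / 5 * (‖w y‖ * Ap R ρ x e y) + 2 * κ * Ap R ρ x e y
    + 11 / 5 * (HB / R) * ‖w y‖ + 2 * κ * (HB / R) * 1) (ball x R) := s3.add j4
  have s5 : IntegrableOn (fun y => 1 / 5 * (‖w y‖ * Ap R ρ x e y) + 2 * κ * Ap R ρ x e y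
    + 11 / 5 * (HB / R) * ‖w y‖ + 2 * κ * (HB / R) * 1 + fderiv ℝ φ y (w y)) (ball x R) :=
    s4.add iw
  rw [integral_add s5 j6, integral_add s4 iw, integral_add s3 j4, integral_add s2 j3,
    integral_add j1 j2, integral_const_mul, integral_const_mul,
    integral_const_mul, integral_const_mul, integral_const_mul, h0, hvol, ← hI] at h3
  -- the lower bound
  have h4 : hh (1 / 4) ^ 2 * (3 / (8 * ρ)) * ∫ y in ball x r, ‖w y‖
      ≤ ∫ y in ball x R, ‖w y‖ * Ap R ρ x e y := by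
    have hsub : ball x r ⊆ ball x R := ball_subset_ball (by linarith)
    have h5 : ∫ y in ball x r, ‖w y‖ * Ap R ρ x e y
        ≤ ∫ y in ball x R, ‖w y‖ * Ap R ρ x e y :=
      setIntegral_mono_set iWA (Filter.Eventually.of_forall fun y =>
        mul_nonneg (norm_nonneg _) (hAp0 y)) hsub.eventuallyLE
    refine le_trans ?_ h5
    rw [← integral_const_mul]
    refine setIntegral_mono_on ((iW.mono_set hsub).const_mul _) (iWA.mono_set hsub)
      measurableSet_ball fun y hy => ?_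
    rw [mem_ball, dist_eq_norm] at hy
    have h6 := Ap_ge hρ hR hρR x he (y := y) (by rw [hρd]; linarith)
    rw [mul_comm]
    exact mul_le_mul_of_nonneg_left h6 (norm_nonneg _)
  exact morrey_alg hR hr hκ (by linarith) hv hh0 hI0 h2 h3 h4 hρd

end Pool.Agent.R211.CD
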