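import Pool.Agent.R211.CD.Pt

/-!
The production of enstrophy of a field with small oscillation of the direction at a fixed scale.
-/

open MeasureTheory Set Filter Topology
open scoped ContDiff
open H459R3.NS Pool.Agent.R210

namespace Pool.Agent.R211.CD

/-- The choice of the scale. -/
theorem opt {F S Λ ρ a C1 C2 P : ℝ} (hF0 : 0 ≤ F) (hS : 0 ≤ S) (hΛ : 0 < Λ) (hρ : 0 < ρ)
    (ha0 : 0 < a) (ha1 : a ≤ 1) (hC1 : 0 ≤ C1) (hC2 : 0 ≤ C2)
    (hF : ∀ τ, 0 < τ → τ ≤ ρ → F ≤ C1 * (Λ / τ ^ 2 + τ * Real.sqrt S))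
    (hP : ∀ τ, 0 < τ → τ ≤ ρ → P ≤ C2 * F ^ 2 * (τ * Real.sqrt S + a ^ 3 * Λ / τ ^ 2)) :
    P ≤ (8 * C1 ^ 2 * C2 + 2 * C2) * (a * Λ * (S + F ^ 2 / ρ ^ 2)) := by
  set s := Real.sqrt S with hs
  have hs0 : 0 ≤ s := Real.sqrt_nonneg _
  have hss : s ^ 2 = S := Real.sq_sqrt hS
  rcases le_or_gt (ρ ^ 3 * s) Λ with h | h
  · have h1 := hP (a * ρ) (by positivity) (mul_le_of_le_one_left hρ.le ha1)
    have e1 : a * ρ * s + a ^ 3 * Λ / (a * ρ) ^ 2 = a * (ρ * s + Λ / ρ ^ 2) := by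
      field_simp
    rw [e1] at h1
    have h2 : ρ * s ≤ Λ / ρ ^ 2 := by
      rw [le_div_iff₀ (by positivity)]
      calc ρ * s * ρ ^ 2 = ρ ^ 3 * s := by ring
        _ ≤ Λ := h
    have h3 : C2 * F ^ 2 * (a * (ρ * s + Λ / ρ ^ 2)) ≤ C2 * F ^ 2 * (a * (2 * (Λ / ρ ^ 2))) := by
      refine mul_le_mul_of_nonneg_left (mul_le_mul_of_nonneg_left (by linarith) ha0.le)
        (by positivity)
    refine h1.trans (h3.trans ?_)
    have e2 : C2 * F ^ 2 * (a * (2 * (Λ / ρ ^ 2))) = 2 * C2 * (a * Λ * (F ^ 2 / ρ ^ 2)) := by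
      ring
    rw [e2]
    have h4 : 0 ≤ a * Λ * S := by positivity
    have h5 : 0 ≤ a * Λ * (F ^ 2 / ρ ^ 2) := by positivity
    have h6 : 0 ≤ 8 * C1 ^ 2 * C2 := by positivity
    nlinarith [mul_nonneg h6 h4, mul_nonneg h6 h5, mul_nonneg hC2 h4]
  · have hs1 : 0 < s := by
      rcases hs0.eq_or_lt with h0 | h0
      · rw [← h0, mul_zero] at h
        linarith
      · exact h0
    set b : ℝ := (Λ / s) ^ (1 / 3 : ℝ) with hb
    have hb0 : 0 < b := Real.rpow_pos_of_pos (by positivity) _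
    have hb3 : b ^ 3 = Λ / s := by
      rw [hb, ← Real.rpow_natCast, ← Real.rpow_mul (by positivity)]
      norm_num
    have hbs : b ^ 3 * s = Λ := by rw [hb3]; field_simp
    have hbρ : b ≤ ρ := by
      by_contra hc
      push Not at hc
      have h1 : ρ ^ 3 < b ^ 3 := pow_lt_pow_left₀ hc hρ.le (by norm_num)
      have h2 : ρ ^ 3 * s < b ^ 3 * s := mul_lt_mul_of_pos_right h1 hs1
      linarith
    have hLb : Λ / b ^ 2 = b * s := by
      rw [← hbs]; field_simp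
    have h1 := hF b hb0 hbρ
    rw [hLb] at h1
    have h1' : F ≤ 2 * C1 * (b * s) := by linarith
    have h2 := hP (a * b) (by positivity) ((mul_le_of_le_one_left hb0.le ha1).trans hbρ)
    have e1 : a * b * s + a ^ 3 * Λ / (a * b) ^ 2 = a * (b * s + Λ / b ^ 2) := by
      field_simp
    rw [e1, hLb] at h2
    have h3 : F ^ 2 ≤ (2 * C1 * (b * s)) ^ 2 := pow_le_pow_left₀ hF0 h1' 2
    have h4 : C2 * F ^ 2 * (a * (b * s + b * s))
        ≤ C2 * (2 * C1 * (b * s)) ^ 2 * (a * (b * s + b * s)) := by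
      refine mul_le_mul_of_nonneg_right (mul_le_mul_of_nonneg_left h3 hC2) (by positivity)
    refine h2.trans (h4.trans ?_)
    have e2 : C2 * (2 * C1 * (b * s)) ^ 2 * (a * (b * s + b * s))
        = 8 * C1 ^ 2 * C2 * (a * (b ^ 3 * s) * s ^ 2) := by ring
    rw [e2, hbs, hss]
    have h5 : 0 ≤ a * Λ * S := by positivity
    have h6 : 0 ≤ a * Λ * (F ^ 2 / ρ ^ 2) := by positivity
    have h7 : 0 ≤ 8 * C1 ^ 2 * C2 := by positivity
    nlinarith [mul_nonneg h7 h6, mul_nonneg hC2 h6, mul_nonneg hC2 h5]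

theorem int_inv3 {τ ρ : ℝ} (hτ : 0 < τ) (hτρ : τ ≤ ρ) :
    ∫ t in τ..ρ, t⁻¹ ^ 3 ≤ 1 / 2 * (1 / τ ^ 2) := by
  have hpos : ∀ t ∈ uIcc τ ρ, 0 < t := by
    intro t ht
    rw [uIcc_of_le hτρ] at ht
    exact hτ.trans_le ht.1
  have hd : ∀ t ∈ uIcc τ ρ, HasDerivAt (fun t : ℝ => -(1 / 2) * t⁻¹ ^ 2) (t⁻¹ ^ 3) t := by
    intro t ht
    have h0 := (hpos t ht).ne'
    have h1 := ((hasDerivAt_inv h0).pow 2).const_mul (-(1 / 2))
    have e : -(1 / 2 : ℝ) * ((2 : ℕ) * t⁻¹ ^ (2 - 1) * -(t ^ 2)⁻¹) = t⁻¹ ^ 3 := by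
      have e1 : (2 - 1 : ℕ) = 1 := rfl
      rw [e1, pow_one, ← inv_pow]
      push_cast
      ring
    exact h1.congr_deriv e
  have hc : ContinuousOn (fun t : ℝ => t⁻¹ ^ 3) (uIcc τ ρ) := by
    refine ContinuousOn.pow (continuousOn_inv₀.mono fun t ht => ?_) 3
    exact (hpos t ht).ne'
  rw [intervalIntegral.integral_eq_sub_of_hasDerivAt hd hc.intervalIntegrable]
  have h1 : 0 ≤ ρ⁻¹ ^ 2 := by positivity
  have e : 1 / τ ^ 2 = τ⁻¹ ^ 2 := by rw [inv_pow, one_div]
  rw [e]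
  linarith

theorem en_cross_le (a b : V) : en (crossProduct a b) ≤ en a * en b := by
  unfold en
  rw [← Real.sqrt_mul (rsq_nonneg a)]
  refine Real.sqrt_le_sqrt ?_
  unfold rsq
  simp only [Fin.sum_univ_three, cross_apply, Matrix.cons_val_zero, Matrix.cons_val_one,
    Matrix.cons_val]
  nlinarith [sq_nonneg (a 0 * b 0 + a 1 * b 1 + a 2 * b 2)]

section

variable {w : V → V} (hw : ∀ i, SP (fun x => w x i))

/-- The integral over the scales of the absolute value of the production. -/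
noncomputable def Pf (w : V → V) (ρ : ℝ) (x : V) : ℝ := ∫ t in (0 : ℝ)..ρ, t * |Zf w w t x|

include hw in
theorem Zfx_cont (x : V) : Continuous fun t : ℝ => Zf w w t x := by
  have h2 : Continuous fun t : ℝ => ((t, x) : ℝ × V) := by fun_prop
  have h3 := (Zf_cont hw hw).comp h2
  exact h3

include hw in
theorem Pf_cont (ρ : ℝ) : Continuous (Pf w ρ) := by
  have h2 : Continuous fun p : V × ℝ => ((p.2, p.1) : ℝ × V) := by fun_prop
  have h3 := (Zf_cont hw hw).comp h2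
  have h4 : Continuous fun p : V × ℝ => Zf w w p.2 p.1 := h3
  have hc : Continuous fun p : V × ℝ => p.2 * |Zf w w p.2 p.1| := continuous_snd.mul h4.abs
  unfold Pf
  exact intervalIntegral.continuous_parametric_intervalIntegral_of_continuous
    (f := fun x t => t * |Zf w w t x|) hc continuous_const

include hw in
theorem Pf_le {τ ρ Λ a : ℝ} (hτ : 0 < τ) (hτρ : τ ≤ ρ) (ha : 0 ≤ a) (x : V)
    (hb : ∀ t, 0 < t → t ≤ ρ → ∫ z in U1, en (w (x - t • z)) ≤ Λ / t ^ 2)
    (hang : ∀ y, en (x - y) ≤ ρ → en (crossProduct (w x) (w y)) ≤ a * (en (w x) * en (w y))) :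
    Pf w ρ x ≤ 6 * BB * en (w x) ^ 2 * (τ * Real.sqrt (Sf w ρ x) + a * Λ / τ ^ 2) := by
  have hB := one_le_BB
  have hS0 := Sf_nonneg w (hτ.le.trans hτρ) x
  have hZ := Zfx_cont hw x
  have hc : Continuous fun t : ℝ => t * |Zf w w t x| := continuous_id.mul hZ.abs
  have hr := rsq_nonneg (w x)
  have hLt : 0 ≤ Λ / τ ^ 2 := (integral_nonneg fun z => en_nonneg _).trans (hb τ hτ hτρ)
  have hΛ : 0 ≤ Λ := by
    have := mul_nonneg hLt (sq_nonneg τ)
    rwa [div_mul_cancel₀ _ (by positivity)] at this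
  -- small scales
  have h1 : ∫ t in (0 : ℝ)..τ, t * |Zf w w t x|
      ≤ 6 * rsq (w x) * (τ * Real.sqrt (Sf w ρ x)) := by
    have hbc : Continuous fun t : ℝ => Real.sqrt (bq w t x) :=
      Real.continuous_sqrt.comp (bq_cont_t hw x)
    have h2 : ∫ t in (0 : ℝ)..τ, t * |Zf w w t x|
        ≤ ∫ t in (0 : ℝ)..τ, 6 * rsq (w x) * (t * Real.sqrt (bq w t x)) := by
      refine intervalIntegral.integral_mono_on hτ.le (hc.intervalIntegrable _ _)
        ((continuous_const.mul (continuous_id.mul hbc)).intervalIntegrable _ _) fun t ht => ?_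
      have := mul_le_mul_of_nonneg_left (Zf_bq hw t x) ht.1
      linarith
    rw [intervalIntegral.integral_const_mul] at h2
    refine h2.trans (mul_le_mul_of_nonneg_left ?_ (by positivity))
    have h3 := wcs hbc hτ
    have e1 : ∫ t in (0 : ℝ)..τ, t * Real.sqrt (bq w t x) ^ 2 = Sf w τ x := by
      unfold Sf
      congr 1
      funext t
      rw [Real.sq_sqrt (bq_nonneg _ _ _)]
    rw [e1] at h3
    refine le_of_sq_le_sq ?_ (by positivity)
    rw [mul_pow, Real.sq_sqrt hS0]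
    have h4 := Sf_mono hw hτ.le hτρ x
    have h5 : τ ^ 2 / 2 * Sf w τ x ≤ τ ^ 2 * Sf w ρ x := by
      have := Sf_nonneg w hτ.le x
      nlinarith [sq_nonneg τ, mul_nonneg (sq_nonneg τ) this,
        mul_le_mul_of_nonneg_left h4 (sq_nonneg τ)]
    linarith
  -- large scales
  have h2 : ∫ t in τ..ρ, t * |Zf w w t x| ≤ 3 * BB * a * Λ * rsq (w x) * (1 / τ ^ 2) := by
    have hpos : ∀ t ∈ uIcc τ ρ, 0 < t := by
      intro t ht
      rw [uIcc_of_le hτρ] at ht
      exact hτ.trans_le ht.1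
    have hci : ContinuousOn (fun t : ℝ => t⁻¹ ^ 3) (uIcc τ ρ) := by
      refine ContinuousOn.pow (continuousOn_inv₀.mono fun t ht => ?_) 3
      exact (hpos t ht).ne'
    have h3 : ∫ t in τ..ρ, t * |Zf w w t x|
        ≤ ∫ t in τ..ρ, 3 * BB * a * Λ * rsq (w x) * t⁻¹ ^ 3 := by
      refine intervalIntegral.integral_mono_on hτρ (hc.intervalIntegrable _ _)
        (hci.intervalIntegrable.const_mul _) fun t ht => ?_
      have ht0 : 0 < t := hτ.trans_le ht.1
      exact Zf_far hw ht0 ha x (hb t ht0 ht.2) fun y hy => hang y (hy.trans ht.2)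
    rw [intervalIntegral.integral_const_mul] at h3
    refine h3.trans (mul_le_mul_of_nonneg_left ?_ (by positivity))
    have h4 := int_inv3 hτ hτρ
    have h5 : 0 ≤ 1 / τ ^ 2 := by positivity
    linarith
  have e1 : Pf w ρ x = (∫ t in (0 : ℝ)..τ, t * |Zf w w t x|) + ∫ t in τ..ρ, t * |Zf w w t x| :=
    (intervalIntegral.integral_add_adjacent_intervals (hc.intervalIntegrable _ _)
      (hc.intervalIntegrable _ _)).symm
  rw [e1, en_sq]
  refine (add_le_add h1 h2).trans ?_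
  have h6 : 0 ≤ rsq (w x) * (τ * Real.sqrt (Sf w ρ x)) := by positivity
  have h7 : 0 ≤ rsq (w x) * (a * Λ / τ ^ 2) := by positivity
  have e2 : 3 * BB * a * Λ * rsq (w x) * (1 / τ ^ 2) = 3 * BB * (rsq (w x) * (a * Λ / τ ^ 2)) := by
    ring
  rw [e2]
  nlinarith [mul_nonneg (by linarith : 0 ≤ BB) h6, mul_nonneg (by linarith : 0 ≤ BB) h7,
    mul_nonneg (by linarith : 0 ≤ BB - 1) h6]

/-- The constant of the near part. -/
noncomputable def CP : ℝ := 8 * (3 * BB + 6) ^ 2 * (6 * BB) + 2 * (6 * BB)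

theorem CP_pos : 0 < CP := by
  have := one_le_BB
  unfold CP
  positivity

include hw in
/-- The near part of the production, pointwise. -/
theorem Pf_opt {ρ Λ a : ℝ} (hρ : 0 < ρ) (hΛ : 0 < Λ) (ha0 : 0 < a) (ha1 : a ≤ 1) (x : V)
    (hb : ∀ t, 0 < t → t ≤ ρ → ∫ z in U1, en (w (x - t • z)) ≤ Λ / t ^ 2)
    (hang : ∀ y, en (x - y) ≤ ρ →
      en (crossProduct (w x) (w y)) ≤ a ^ 3 * (en (w x) * en (w y))) :
    Pf w ρ x ≤ CP * (a * Λ * (Sf w ρ x + rsq (w x) / ρ ^ 2)) := by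
  have hB := one_le_BB
  have h := opt (F := en (w x)) (S := Sf w ρ x) (Λ := Λ) (ρ := ρ) (a := a) (C1 := 3 * BB + 6)
    (C2 := 6 * BB) (P := Pf w ρ x) (en_nonneg _) (Sf_nonneg w hρ.le x) hΛ hρ ha0 ha1
    (by positivity) (by positivity)
    (fun τ hτ hτρ => en_le hw hτ hτρ x (hb τ hτ hτρ))
    (fun τ hτ hτρ => Pf_le hw hτ hτρ (by positivity) x hb hang)
  rw [en_sq] at h
  exact h

include hw in
/-- The near part of the production. -/
theorem near_int {ρ Λ a : ℝ} (hρ : 0 < ρ) (hΛ : 0 < Λ) (ha0 : 0 < a) (ha1 : a ≤ 1)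
    (hb : ∀ x t, 0 < t → t ≤ ρ → ∫ z in U1, en (w (x - t • z)) ≤ Λ / t ^ 2)
    (hang : ∀ x y, en (x - y) ≤ ρ →
      en (crossProduct (w x) (w y)) ≤ a ^ 3 * (en (w x) * en (w y))) :
    |∫ t in (0 : ℝ)..ρ, t * ∫ x in cube, Zf w w t x|
      ≤ CP * (a * Λ * (3 * CS * (∫ x in cube, G2 w x) + (∫ x in cube, rsq (w x)) / ρ ^ 2)) := by
  have hCP := CP_pos
  have h3 := Zf_cont hw hw
  have hc : Continuous fun p : ℝ × V => p.1 * Zf w w p.1 p.2 := continuous_fst.mul h3
  have e1 : ∫ t in (0 : ℝ)..ρ, t * ∫ x in cube, Zf w w t x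
      = ∫ x in cube, ∫ t in (0 : ℝ)..ρ, t * Zf w w t x := by
    rw [swap_int (H := fun t x => t * Zf w w t x) hc hρ.le]
    simp_rw [integral_const_mul]
  rw [e1, ← Real.norm_eq_abs]
  have h4 : ∀ x, ‖∫ t in (0 : ℝ)..ρ, t * Zf w w t x‖ ≤ Pf w ρ x := by
    intro x
    have hZ := Zfx_cont hw x
    unfold Pf
    refine intervalIntegral.norm_integral_le_of_norm_le hρ.le
      (Filter.Eventually.of_forall fun t ht => ?_)
      ((continuous_id.mul hZ.abs).intervalIntegrable _ _)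
    rw [Real.norm_eq_abs, abs_mul, abs_of_pos ht.1]
  refine (norm_integral_le_of_norm_le (integrableOn_cube (Pf_cont hw ρ))
    (Filter.Eventually.of_forall h4)).trans ?_
  have hrc := rsqw_cont hw
  have hSc := Sf_cont hw ρ
  have h5 : ∫ x in cube, Pf w ρ x
      ≤ ∫ x in cube, CP * (a * Λ * (Sf w ρ x + rsq (w x) / ρ ^ 2)) := by
    refine setIntegral_mono (integrableOn_cube (Pf_cont hw ρ)) (integrableOn_cube (by fun_prop))
      fun x => Pf_opt hw hρ hΛ ha0 ha1 x (hb x) (hang x)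
  refine h5.trans ?_
  rw [integral_const_mul, integral_const_mul, integral_add (integrableOn_cube hSc)
    (integrableOn_cube (hrc.div_const _)), integral_div]
  refine mul_le_mul_of_nonneg_left (mul_le_mul_of_nonneg_left ?_ (by positivity)) hCP.le
  have := int_Sf hw hρ.le
  linarith

include hw in
/-- The intermediate scales. -/
theorem mid_int {ρ T Λ : ℝ} (hρ : 0 < ρ) (hρT : ρ ≤ T) (hΛ : 0 ≤ Λ)
    (hb : ∀ x t, 0 < t → t ≤ T → ∫ z in U1, en (w (x - t • z)) ≤ Λ / t ^ 2) :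
    |∫ t in ρ..T, t * ∫ x in cube, Zf w w t x|
      ≤ 3 * BB * Λ * (∫ x in cube, rsq (w x)) / ρ ^ 2 := by
  have hB := one_le_BB
  set Y := ∫ x in cube, rsq (w x) with hY
  have hY0 : 0 ≤ Y := integral_nonneg fun x => rsq_nonneg _
  have hpos : ∀ t ∈ uIcc ρ T, 0 < t := by
    intro t ht
    rw [uIcc_of_le hρT] at ht
    exact hρ.trans_le ht.1
  have hci : ContinuousOn (fun t : ℝ => t⁻¹ ^ 3) (uIcc ρ T) := by
    refine ContinuousOn.pow (continuousOn_inv₀.mono fun t ht => ?_) 3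
    exact (hpos t ht).ne'
  have h1 : ∀ t, ρ < t → t ≤ T → |t * ∫ x in cube, Zf w w t x| ≤ 3 * BB * Λ * Y * t⁻¹ ^ 3 := by
    intro t ht htT
    have ht0 : 0 < t := hρ.trans ht
    have h2 : Continuous fun x : V => ((t, x) : ℝ × V) := by fun_prop
    have h3 := (Zf_cont hw hw).comp h2
    have hZ : Continuous fun x => Zf w w t x := h3
    rw [← integral_const_mul, ← Real.norm_eq_abs]
    have e1 : 3 * BB * Λ * Y * t⁻¹ ^ 3 = ∫ x in cube, 3 * BB * Λ * t⁻¹ ^ 3 * rsq (w x) := by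
      rw [integral_const_mul, ← hY]; ring
    rw [e1]
    refine norm_integral_le_of_norm_le (integrableOn_cube
      (continuous_const.mul (rsqw_cont hw))) (Filter.Eventually.of_forall fun x => ?_)
    rw [Real.norm_eq_abs, abs_mul, abs_of_pos ht0]
    have h4 := Zf_far hw (a := 1) ht0 zero_le_one x (hb x t ht0 htT) fun y _ => by
      rw [one_mul]; exact en_cross_le _ _
    refine h4.trans (le_of_eq (by ring))
  rw [← Real.norm_eq_abs]
  refine (intervalIntegral.norm_integral_le_of_norm_le hρT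
    (Filter.Eventually.of_forall fun t ht => h1 t ht.1 ht.2)
    (hci.intervalIntegrable.const_mul _)).trans ?_
  rw [intervalIntegral.integral_const_mul]
  have h4 := int_inv3 hρ hρT
  have h5 : 0 ≤ 3 * BB * Λ * Y := by positivity
  have h6 : 0 ≤ 1 / ρ ^ 2 := by positivity
  calc 3 * BB * Λ * Y * ∫ t in ρ..T, t⁻¹ ^ 3 ≤ 3 * BB * Λ * Y * (1 / ρ ^ 2) :=
        mul_le_mul_of_nonneg_left (by linarith) h5
    _ = _ := by ring

end

/-- **The estimate of the production.** -/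
theorem prod_small {v w l : V → V} {a T ρ Y L Λ : ℝ} (hv : ∀ i, SP (fun x => v x i))
    (hw : ∀ i, SP (fun x => w x i)) (hl : ∀ i, SP (fun x => l x i)) (hdiv : ∀ x, dv v x = 0)
    (hwl : ∀ x, cu v x = w x + l x) (hL : ∀ x i, |l x i| ≤ L) (ha0 : 0 < a) (ha1 : a ≤ 1)
    (hT : T ≤ 1) (hρ : 0 < ρ) (hρT : ρ ≤ T) (hY : Y = ∫ x in cube, rsq (w x)) (hΛ : 0 < Λ)
    (hb : ∀ x t, 0 < t → t ≤ T → ∫ z in U1, en (w (x - t • z)) ≤ Λ / t ^ 2)
    (hang : ∀ x y, en (x - y) ≤ ρ →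
      en (crossProduct (w x) (w y)) ≤ a ^ 3 * (en (w x) * en (w y))) :
    |Nw w v| ≤ CP * (a * Λ * (3 * CS * (∫ x in cube, G2 w x) + Y / ρ ^ 2))
      + 3 * BB * Λ * Y / ρ ^ 2
      + 3 * Real.sqrt (BB * (T⁻¹ ^ 3 * (27 * enstrophy v))) * Y
      + T * (36 * BB * vU * L * (Real.sqrt (∫ x in cube, G2 w x) * Real.sqrt Y)) := by
  have hB := one_le_BB
  have hvU := vU_nonneg
  have hT0 : 0 < T := hρ.trans_le hρT
  have hY0 : 0 ≤ Y := by rw [hY]; exact integral_nonneg fun x => rsq_nonneg _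
  set G := ∫ x in cube, G2 w x with hGd
  -- the term of scale one
  set M := Real.sqrt (BB * (T⁻¹ ^ 3 * (27 * enstrophy v))) with hM
  have hMle : ∀ x i j, |mo phi T (pd i (fun y => v y j)) x| ≤ M := by
    intro x i j
    refine (mo_phi_le ((hv j).pd i) hT0 hT x).trans (Real.sqrt_le_sqrt ?_)
    have := en_term_le v i j
    have h2 : 0 ≤ T⁻¹ ^ 3 := by positivity
    exact mul_le_mul_of_nonneg_left (mul_le_mul_of_nonneg_left (by linarith) h2) (by linarith)
  have hterm1 : |∫ x in cube, ∑ i, ∑ j, w x i * w x j * mo phi T (pd i (fun y => v y j)) x|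
      ≤ 3 * M * Y := by
    rw [hY, ← integral_const_mul, ← Real.norm_eq_abs]
    refine norm_integral_le_of_norm_le (integrableOn_cube
      (continuous_const.mul (rsqw_cont hw))) (Filter.Eventually.of_forall fun x => ?_)
    rw [Real.norm_eq_abs]
    exact rsq_sum_le fun i j => hMle x i j
  -- continuity
  have hcw : Continuous fun t : ℝ => ∫ x in cube, Zf w w t x :=
    continuous_parametric_integral_of_continuous (μ := volume) (f := fun t x => Zf w w t x)
      (Zf_cont hw hw) isCompact_Icc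
  have hcl : Continuous fun t : ℝ => ∫ x in cube, Zf w l t x :=
    continuous_parametric_integral_of_continuous (μ := volume) (f := fun t x => Zf w l t x)
      (Zf_cont hw hl) isCompact_Icc
  have hcw' : Continuous fun t : ℝ => t * ∫ x in cube, Zf w w t x := continuous_id.mul hcw
  have hcl' : Continuous fun t : ℝ => t * ∫ x in cube, Zf w l t x := continuous_id.mul hcl
  have hnear := near_int hw hρ hΛ ha0 ha1
    (fun x t h1 h2 => hb x t h1 (h2.trans hρT)) hang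
  rw [← hGd, ← hY] at hnear
  have hmid := mid_int hw hρ hρT hΛ.le hb
  rw [← hY] at hmid
  -- the bounded part
  have hlow : |∫ t in (0 : ℝ)..T, t * ∫ x in cube, Zf w l t x|
      ≤ T * (36 * BB * vU * L * (Real.sqrt G * Real.sqrt Y)) := by
    rw [← Real.norm_eq_abs]
    have h4 := intervalIntegral.norm_integral_le_of_norm_le_const (a := (0 : ℝ)) (b := T)
      (f := fun t => t * ∫ x in cube, Zf w l t x)
      (C := 36 * BB * vU * L * (Real.sqrt G * Real.sqrt Y)) fun t ht => by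
        rw [uIoc_of_le hT0.le] at ht
        rw [Real.norm_eq_abs, abs_mul, abs_of_pos ht.1, hY]
        exact Jl_le hw hl hL ht.1.le
    rw [sub_zero, abs_of_pos hT0] at h4
    linarith
  have hsum : |∫ t in (0 : ℝ)..T, (-(t * ∫ x in cube, Zf w w t x) - t * ∫ x in cube, Zf w l t x)|
      ≤ CP * (a * Λ * (3 * CS * G + Y / ρ ^ 2)) + 3 * BB * Λ * Y / ρ ^ 2
        + T * (36 * BB * vU * L * (Real.sqrt G * Real.sqrt Y)) := by
    have e1 : ∫ t in (0 : ℝ)..T, (-(t * ∫ x in cube, Zf w w t x) - t * ∫ x in cube, Zf w l t x)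
        = -((∫ t in (0 : ℝ)..ρ, t * ∫ x in cube, Zf w w t x)
          + ∫ t in ρ..T, t * ∫ x in cube, Zf w w t x)
          - ∫ t in (0 : ℝ)..T, t * ∫ x in cube, Zf w l t x := by
      rw [intervalIntegral.integral_add_adjacent_intervals (hcw'.intervalIntegrable _ _)
        (hcw'.intervalIntegrable _ _), ← intervalIntegral.integral_neg]
      exact intervalIntegral.integral_sub (hcw'.neg.intervalIntegrable _ _)
        (hcl'.intervalIntegrable _ _)
    rw [e1]
    have a1 := abs_le.1 hnear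
    have a2 := abs_le.1 hmid
    have a3 := abs_le.1 hlow
    rw [abs_le]
    constructor
    · linarith [a1.2, a2.2, a3.2]
    · linarith [a1.1, a2.1, a3.1]
  rw [Nw_eq hv hw hl hdiv hwl hT0.le]
  refine (abs_add_le _ _).trans ((add_le_add hterm1 hsum).trans ?_)
  linarith

end Pool.Agent.R211.CD
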