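import Pool.Agent.R211.CD.Sq

/-!
Pointwise estimates of the field and of the production by the square function.
-/

open MeasureTheory Set Filter Topology
open scoped ContDiff
open H459R3.NS Pool.Agent.R210

namespace Pool.Agent.R211.CD

/-- The Cauchy-Schwarz inequality with the weight `t`. -/
theorem wcs {b : ℝ → ℝ} (hb : Continuous b) {τ : ℝ} (hτ : 0 < τ) :
    (∫ t in (0 : ℝ)..τ, t * b t) ^ 2 ≤ τ ^ 2 / 2 * ∫ t in (0 : ℝ)..τ, t * b t ^ 2 := by
  set I1 := ∫ t in (0 : ℝ)..τ, t * b t with hI1
  set I2 := ∫ t in (0 : ℝ)..τ, t * b t ^ 2 with hI2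
  set m : ℝ := 2 * I1 / τ ^ 2 with hm
  have h1 : 0 ≤ ∫ t in (0 : ℝ)..τ, t * (b t - m) ^ 2 :=
    intervalIntegral.integral_nonneg hτ.le fun t ht => mul_nonneg ht.1 (sq_nonneg _)
  have e1 : ∫ t in (0 : ℝ)..τ, t * (b t - m) ^ 2 = I2 - 2 * m * I1 + m ^ 2 * (τ ^ 2 / 2) := by
    have a1 : ∀ t : ℝ, t * (b t - m) ^ 2 = t * b t ^ 2 - 2 * m * (t * b t) + m ^ 2 * t := by
      intro t; ring
    simp_rw [a1]
    rw [intervalIntegral.integral_add, intervalIntegral.integral_sub,
      intervalIntegral.integral_const_mul, intervalIntegral.integral_const_mul, integral_id]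
    · ring
    · exact Continuous.intervalIntegrable (by fun_prop) _ _
    · exact Continuous.intervalIntegrable (by fun_prop) _ _
    · exact Continuous.intervalIntegrable (by fun_prop) _ _
    · exact Continuous.intervalIntegrable (by fun_prop) _ _
  rw [e1] at h1
  have e2 : I2 - 2 * m * I1 + m ^ 2 * (τ ^ 2 / 2) = I2 - 2 * I1 ^ 2 / τ ^ 2 := by
    rw [hm]; field_simp; ring
  rw [e2] at h1
  have h2 : 2 * I1 ^ 2 / τ ^ 2 ≤ I2 := by linarith
  rw [div_le_iff₀ (by positivity)] at h2
  linarith

section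

variable {w : V → V} (hw : ∀ i, SP (fun x => w x i))

/-- The sum of the squares of the mollified second derivatives. -/
noncomputable def bq (w : V → V) (t : ℝ) (x : V) : ℝ :=
  ∑ i, ∑ j, ∑ k, mo psi t (pd i (pd j (fun y => w y k))) x ^ 2

theorem bq_nonneg (w : V → V) (t : ℝ) (x : V) : 0 ≤ bq w t x :=
  Finset.sum_nonneg fun i _ => Finset.sum_nonneg fun j _ => Finset.sum_nonneg fun k _ =>
    sq_nonneg _

include hw in
theorem bq_cont : Continuous fun p : ℝ × V => bq w p.1 p.2 := by
  unfold bq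
  refine continuous_finsetSum _ fun i _ => continuous_finsetSum _ fun j _ =>
    continuous_finsetSum _ fun k _ => ?_
  exact (mo_cont psi_cont psi_compact (((hw k).pd j).pd i).cont (((hw k).pd j).pd i).per).pow 2

include hw in
theorem bq_cont_t (x : V) : Continuous fun t : ℝ => bq w t x := by
  have h2 : Continuous fun t : ℝ => ((t, x) : ℝ × V) := by fun_prop
  have h3 := (bq_cont hw).comp h2
  exact h3

theorem term_le_bq (w : V → V) (t : ℝ) (x : V) (i j k : Fin 3) :
    mo psi t (pd i (pd j (fun y => w y k))) x ^ 2 ≤ bq w t x := by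
  unfold bq
  refine le_trans ?_ (Finset.single_le_sum (f := fun i => ∑ j, ∑ k,
    mo psi t (pd i (pd j (fun y => w y k))) x ^ 2)
    (fun i _ => Finset.sum_nonneg fun j _ => Finset.sum_nonneg fun k _ => sq_nonneg _)
    (Finset.mem_univ i))
  refine le_trans ?_ (Finset.single_le_sum (f := fun j => ∑ k,
    mo psi t (pd i (pd j (fun y => w y k))) x ^ 2)
    (fun j _ => Finset.sum_nonneg fun k _ => sq_nonneg _) (Finset.mem_univ j))
  exact Finset.single_le_sum (f := fun k => mo psi t (pd i (pd j (fun y => w y k))) x ^ 2)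
    (fun k _ => sq_nonneg _) (Finset.mem_univ k)

/-- The square function. -/
noncomputable def Sf (w : V → V) (ρ : ℝ) (x : V) : ℝ := ∫ t in (0 : ℝ)..ρ, t * bq w t x

theorem Sf_nonneg (w : V → V) {ρ : ℝ} (hρ : 0 ≤ ρ) (x : V) : 0 ≤ Sf w ρ x :=
  intervalIntegral.integral_nonneg hρ fun t ht => mul_nonneg ht.1 (bq_nonneg _ _ _)

include hw in
theorem Sf_mono {τ ρ : ℝ} (hτ : 0 ≤ τ) (hτρ : τ ≤ ρ) (x : V) : Sf w τ x ≤ Sf w ρ x := by
  have hc : Continuous fun t : ℝ => t * bq w t x := continuous_id.mul (bq_cont_t hw x)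
  have h1 := intervalIntegral.integral_add_adjacent_intervals (hc.intervalIntegrable 0 τ)
    (hc.intervalIntegrable τ ρ) (μ := volume)
  have h2 : 0 ≤ ∫ t in τ..ρ, t * bq w t x :=
    intervalIntegral.integral_nonneg hτρ fun t ht =>
      mul_nonneg (hτ.trans ht.1) (bq_nonneg _ _ _)
  unfold Sf
  rw [← h1]
  linarith

include hw in
theorem Sf_cont (ρ : ℝ) : Continuous (Sf w ρ) := by
  have h2 : Continuous fun p : V × ℝ => ((p.2, p.1) : ℝ × V) := by fun_prop
  have h3 := (bq_cont hw).comp h2
  have h4 : Continuous fun p : V × ℝ => bq w p.2 p.1 := h3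
  have hc : Continuous fun p : V × ℝ => p.2 * bq w p.2 p.1 := continuous_snd.mul h4
  unfold Sf
  exact intervalIntegral.continuous_parametric_intervalIntegral_of_continuous
    (f := fun x t => t * bq w t x) hc continuous_const

include hw in
/-- The integral of the square function. -/
theorem int_Sf {ρ : ℝ} (hρ : 0 ≤ ρ) :
    ∫ x in cube, Sf w ρ x ≤ 3 * CS * ∫ x in cube, G2 w x := by
  have hc : Continuous fun p : ℝ × V => p.1 * bq w p.1 p.2 := continuous_fst.mul (bq_cont hw)
  have e1 : ∫ x in cube, Sf w ρ x = ∫ t in (0 : ℝ)..ρ, ∫ x in cube, t * bq w t x := by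
    unfold Sf
    exact swap_int (H := fun t x => t * bq w t x) hc hρ
  have hmc : ∀ i j k : Fin 3, ∀ t : ℝ,
      Continuous fun x => mo psi t (pd i (pd j (fun y => w y k))) x ^ 2 := fun i j k t => by
    have h2 : Continuous fun x : V => ((t, x) : ℝ × V) := by fun_prop
    exact ((mo_cont psi_cont psi_compact (((hw k).pd j).pd i).cont
      (((hw k).pd j).pd i).per).comp h2).pow 2
  have e2 : ∀ t, ∫ x in cube, t * bq w t x
      = ∑ i, ∑ j, ∑ k, t * ∫ x in cube, mo psi t (pd i (pd j (fun y => w y k))) x ^ 2 := by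
    intro t
    rw [integral_const_mul]
    unfold bq
    rw [integral_finsetSum _ fun i _ => integrable_finsetSum _ fun j _ =>
      integrable_finsetSum _ fun k _ => integrableOn_cube (hmc i j k t), Finset.mul_sum]
    refine Finset.sum_congr rfl fun i _ => ?_
    rw [integral_finsetSum _ fun j _ =>
      integrable_finsetSum _ fun k _ => integrableOn_cube (hmc i j k t), Finset.mul_sum]
    refine Finset.sum_congr rfl fun j _ => ?_
    rw [integral_finsetSum _ fun k _ => integrableOn_cube (hmc i j k t), Finset.mul_sum]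
  have hct : ∀ i j k : Fin 3, Continuous fun t : ℝ =>
      t * ∫ x in cube, mo psi t (pd i (pd j (fun y => w y k))) x ^ 2 := fun i j k => by
    refine continuous_id.mul (continuous_parametric_integral_of_continuous (μ := volume)
      (f := fun t x => mo psi t (pd i (pd j (fun y => w y k))) x ^ 2) ?_ isCompact_Icc)
    exact (mo_cont psi_cont psi_compact (((hw k).pd j).pd i).cont
      (((hw k).pd j).pd i).per).pow 2
  rw [e1]
  simp_rw [e2]
  rw [intervalIntegral.integral_finsetSum fun i _ => Continuous.intervalIntegrable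
    (continuous_finsetSum _ fun j _ => continuous_finsetSum _ fun k _ => hct i j k) _ _]
  have e3 : ∀ i : Fin 3, ∫ t in (0 : ℝ)..ρ, ∑ j, ∑ k, t * ∫ x in cube,
      mo psi t (pd i (pd j (fun y => w y k))) x ^ 2 ≤ CS * ∫ x in cube, G2 w x := by
    intro i
    rw [intervalIntegral.integral_finsetSum fun j _ => Continuous.intervalIntegrable
      (continuous_finsetSum _ fun k _ => hct i j k) _ _]
    have e4 : ∫ x in cube, G2 w x = ∑ j, ∑ k, ∫ x in cube, pd j (fun y => w y k) x ^ 2 := by
      have hp : ∀ k j : Fin 3, Continuous fun x => pd j (fun y => w y k) x ^ 2 := fun k j =>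
        ((hw k).pd j).cont.pow 2
      have a1 : ∫ x in cube, G2 w x = ∑ k, ∑ j, ∫ x in cube, pd j (fun y => w y k) x ^ 2 := by
        unfold G2 gr2
        rw [integral_finsetSum _ fun k _ => integrable_finsetSum _ fun j _ =>
          integrableOn_cube (hp k j)]
        refine Finset.sum_congr rfl fun k _ => ?_
        rw [integral_finsetSum _ fun j _ => integrableOn_cube (hp k j)]
      rw [a1, Finset.sum_comm]
    rw [e4, Finset.mul_sum]
    refine Finset.sum_le_sum fun j _ => ?_
    rw [intervalIntegral.integral_finsetSum fun k _ => (hct i j k).intervalIntegrable _ _,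
      Finset.mul_sum]
    refine Finset.sum_le_sum fun k _ => ?_
    exact sq_fn ((hw k).pd j) i hρ
  refine (Finset.sum_le_sum fun i _ => e3 i).trans (le_of_eq ?_)
  simp only [Finset.sum_const, Finset.card_univ, Fintype.card_fin, nsmul_eq_mul]
  push_cast
  ring

include hw in
/-- The difference between a component and its mollification. -/
theorem err_le {τ ρ : ℝ} (hτ : 0 < τ) (hτρ : τ ≤ ρ) (k : Fin 3) (x : V) :
    |w x k - mo phi τ (fun y => w y k) x| ≤ 2 * (τ * Real.sqrt (Sf w ρ x)) := by
  have h0 := mo_repr (hw k) τ x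
  have hS0 := Sf_nonneg w (hτ.le.trans hτρ) x
  have hc : Continuous fun t => mo psi t (lap (fun y => w y k)) x := by
    have h2 : Continuous fun t : ℝ => ((t, x) : ℝ × V) := by fun_prop
    exact (mo_cont psi_cont psi_compact (hw k).lap.cont (hw k).lap.per).comp h2
  have h1 := wcs hc hτ
  have e1 : w x k - mo phi τ (fun y => w y k) x
      = ∫ t in (0 : ℝ)..τ, t * mo psi t (lap (fun y => w y k)) x := by linarith
  have hmo : ∀ t, mo psi t (lap (fun y => w y k)) x
      = ∑ j, mo psi t (pd j (pd j (fun y => w y k))) x := by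
    intro t
    unfold mo lap
    rw [← integral_finsetSum _ fun j _ =>
      mo_int psi_cont psi_compact (((hw k).pd j).pd j).cont t x]
    congr 1
    funext z
    rw [Finset.mul_sum]
  have h2 : ∀ t, mo psi t (lap (fun y => w y k)) x ^ 2 ≤ 9 / 2 * bq w t x := by
    intro t
    rw [hmo]
    simp only [Fin.sum_univ_three]
    have a0 := term_le_bq w t x 0 0 k
    have a1 := term_le_bq w t x 1 1 k
    have a2 := term_le_bq w t x 2 2 k
    set p := mo psi t (pd 0 (pd 0 (fun y => w y k))) x
    set q := mo psi t (pd 1 (pd 1 (fun y => w y k))) x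
    set r := mo psi t (pd 2 (pd 2 (fun y => w y k))) x
    have hpqr : p ^ 2 + q ^ 2 + r ^ 2 ≤ bq w t x := by
      have b1 : p ^ 2 ≤ ∑ j, ∑ k, mo psi t (pd 0 (pd j (fun y => w y k))) x ^ 2 := by
        refine le_trans ?_ (Finset.single_le_sum (f := fun j => ∑ k,
          mo psi t (pd 0 (pd j (fun y => w y k))) x ^ 2)
          (fun j _ => Finset.sum_nonneg fun k _ => sq_nonneg _) (Finset.mem_univ 0))
        exact Finset.single_le_sum (f := fun k => mo psi t (pd 0 (pd 0 (fun y => w y k))) x ^ 2)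
          (fun k _ => sq_nonneg _) (Finset.mem_univ k)
      have b2 : q ^ 2 ≤ ∑ j, ∑ k, mo psi t (pd 1 (pd j (fun y => w y k))) x ^ 2 := by
        refine le_trans ?_ (Finset.single_le_sum (f := fun j => ∑ k,
          mo psi t (pd 1 (pd j (fun y => w y k))) x ^ 2)
          (fun j _ => Finset.sum_nonneg fun k _ => sq_nonneg _) (Finset.mem_univ 1))
        exact Finset.single_le_sum (f := fun k => mo psi t (pd 1 (pd 1 (fun y => w y k))) x ^ 2)
          (fun k _ => sq_nonneg _) (Finset.mem_univ k)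
      have b3 : r ^ 2 ≤ ∑ j, ∑ k, mo psi t (pd 2 (pd j (fun y => w y k))) x ^ 2 := by
        refine le_trans ?_ (Finset.single_le_sum (f := fun j => ∑ k,
          mo psi t (pd 2 (pd j (fun y => w y k))) x ^ 2)
          (fun j _ => Finset.sum_nonneg fun k _ => sq_nonneg _) (Finset.mem_univ 2))
        exact Finset.single_le_sum (f := fun k => mo psi t (pd 2 (pd 2 (fun y => w y k))) x ^ 2)
          (fun k _ => sq_nonneg _) (Finset.mem_univ k)
      have e : bq w t x = (∑ j, ∑ k, mo psi t (pd 0 (pd j (fun y => w y k))) x ^ 2)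
        + (∑ j, ∑ k, mo psi t (pd 1 (pd j (fun y => w y k))) x ^ 2)
        + (∑ j, ∑ k, mo psi t (pd 2 (pd j (fun y => w y k))) x ^ 2) := by
        unfold bq
        rw [Fin.sum_univ_three]
      rw [e]
      linarith
    have hb := bq_nonneg w t x
    nlinarith [sq_nonneg (p - q), sq_nonneg (q - r), sq_nonneg (p - r)]
  have h3 : ∫ t in (0 : ℝ)..τ, t * mo psi t (lap (fun y => w y k)) x ^ 2
      ≤ 9 / 2 * Sf w ρ x := by
    have h4 : ∫ t in (0 : ℝ)..τ, t * mo psi t (lap (fun y => w y k)) x ^ 2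
        ≤ ∫ t in (0 : ℝ)..τ, 9 / 2 * (t * bq w t x) := by
      refine intervalIntegral.integral_mono_on hτ.le
        ((continuous_id.mul (hc.pow 2)).intervalIntegrable _ _)
        ((continuous_const.mul (continuous_id.mul (bq_cont_t hw x))).intervalIntegrable _ _)
        fun t ht => ?_
      have := mul_le_mul_of_nonneg_left (h2 t) ht.1
      linarith
    rw [intervalIntegral.integral_const_mul] at h4
    have h5 := Sf_mono hw hτ.le hτρ x
    unfold Sf at h5 ⊢
    linarith
  rw [e1]
  refine abs_le_of_sq_le_sq ?_ (by positivity)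
  have eS := Real.sq_sqrt hS0
  calc (∫ t in (0 : ℝ)..τ, t * mo psi t (lap (fun y => w y k)) x) ^ 2
      ≤ τ ^ 2 / 2 * ∫ t in (0 : ℝ)..τ, t * mo psi t (lap (fun y => w y k)) x ^ 2 := h1
    _ ≤ τ ^ 2 / 2 * (9 / 2 * Sf w ρ x) := mul_le_mul_of_nonneg_left h3 (by positivity)
    _ ≤ 4 * (τ ^ 2 * Sf w ρ x) := by nlinarith [mul_nonneg (sq_nonneg τ) hS0]
    _ = (2 * (τ * Real.sqrt (Sf w ρ x))) ^ 2 := by
        rw [mul_pow, mul_pow, eS]; ring

include hw in
/-- The bound of the field by the averages and the square function. -/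
theorem en_le {τ ρ Λ : ℝ} (hτ : 0 < τ) (hτρ : τ ≤ ρ) (x : V)
    (hb : ∫ z in U1, en (w (x - τ • z)) ≤ Λ / τ ^ 2) :
    en (w x) ≤ (3 * BB + 6) * (Λ / τ ^ 2 + τ * Real.sqrt (Sf w ρ x)) := by
  have hB := one_le_BB
  have hS0 := Sf_nonneg w (hτ.le.trans hτρ) x
  have hL0 : 0 ≤ Λ / τ ^ 2 := (integral_nonneg fun z => en_nonneg _).trans hb
  have h1 : ∀ k, |w x k| ≤ BB * (Λ / τ ^ 2) + 2 * (τ * Real.sqrt (Sf w ρ x)) := by
    intro k
    have h2 := err_le hw hτ hτρ k x
    have h3 : |mo phi τ (fun y => w y k) x| ≤ BB * (Λ / τ ^ 2) := by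
      have h4 : |mo phi τ (fun y => w y k) x| ≤ mo phi τ (fun y => en (w y)) x := by
        unfold mo
        rw [← Real.norm_eq_abs]
        refine norm_integral_le_of_norm_le (mo_int phi_smooth.continuous phi_compact
          (f_cont hw) τ x) (Filter.Eventually.of_forall fun z => ?_)
        rw [Real.norm_eq_abs, abs_mul, abs_of_nonneg (phi_nonneg z)]
        exact mul_le_mul_of_nonneg_left (abs_le_en _ _) (phi_nonneg z)
      exact h4.trans ((mo_phi_S hw τ x).trans (mul_le_mul_of_nonneg_left hb (by linarith)))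
    have h5 : w x k = mo phi τ (fun y => w y k) x + (w x k - mo phi τ (fun y => w y k) x) := by
      ring
    rw [h5]
    exact (abs_add_le _ _).trans (add_le_add h3 h2)
  refine (en_le_sum _).trans ?_
  simp only [Fin.sum_univ_three]
  have a0 := h1 0
  have a1 := h1 1
  have a2 := h1 2
  have hs : 0 ≤ τ * Real.sqrt (Sf w ρ x) := by positivity
  nlinarith [mul_nonneg (by linarith : 0 ≤ BB) hs]

include hw in
theorem mo_cu_bq (i j : Fin 3) (t : ℝ) (x : V) :
    |mo psi t (pd i (fun y => cu w y j)) x| ≤ 2 * Real.sqrt (bq w t x) := by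
  rw [cu_fun]
  have e1 : pd i (fun x => pd (ia j) (fun y => w y (ib j)) x - pd (ib j) (fun y => w y (ia j)) x)
      = fun x => pd i (pd (ia j) (fun y => w y (ib j))) x
        - pd i (pd (ib j) (fun y => w y (ia j))) x := by
    funext y
    exact pd_sub' ((hw _).pd _) ((hw _).pd _) i y
  rw [e1, mo_sub psi_cont psi_compact (((hw _).pd _).pd _).cont (((hw _).pd _).pd _).cont]
  have h1 := Real.abs_le_sqrt (term_le_bq w t x i (ia j) (ib j))
  have h2 := Real.abs_le_sqrt (term_le_bq w t x i (ib j) (ia j))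
  refine (abs_sub _ _).trans ?_
  linarith

include hw in
/-- The production at a point and the scale `t`, small scales. -/
theorem Zf_bq (t : ℝ) (x : V) :
    |Zf w w t x| ≤ 6 * rsq (w x) * Real.sqrt (bq w t x) := by
  have h := rsq_sum_le (a := w x) (m := fun i j => mo psi t (pd i (fun y => cu w y j)) x)
    (M := 2 * Real.sqrt (bq w t x)) fun i j => mo_cu_bq hw i j t x
  unfold Zf
  refine h.trans (le_of_eq (by ring))

include hw in
/-- The production at a point and the scale `t`, large scales. -/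
theorem Zf_far {t Λ a : ℝ} (ht : 0 < t) (ha : 0 ≤ a) (x : V)
    (hb : ∫ z in U1, en (w (x - t • z)) ≤ Λ / t ^ 2)
    (hang : ∀ y, en (x - y) ≤ t → en (crossProduct (w x) (w y)) ≤ a * (en (w x) * en (w y))) :
    t * |Zf w w t x| ≤ 3 * BB * a * Λ * rsq (w x) * t⁻¹ ^ 3 := by
  have hB := one_le_BB
  have h1 := Zf_le (w := w) hw t x
  have hc1 : Continuous fun z : V => en (crossProduct (w x) (w (x - t • z))) :=
    en_cont.comp (cross_cont continuous_const ((w_cont hw).comp (by fun_prop)))
  have hc2 : Continuous fun z : V => en (w (x - t • z)) :=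
    (f_cont hw).comp (by fun_prop)
  have h2 : ∫ z in U1, en (crossProduct (w x) (w (x - t • z)))
      ≤ a * en (w x) * ∫ z in U1, en (w (x - t • z)) := by
    rw [← integral_const_mul]
    refine setIntegral_mono_on (int_U1 hc1) (int_U1 (continuous_const.mul hc2)) measurable_U1
      fun z hz => ?_
    have h3 : en (x - (x - t • z)) ≤ t := by
      have e : x - (x - t • z) = t • z := by abel
      rw [e, en_smul, abs_of_pos ht]
      have h4 : en z ≤ 1 := by
        unfold en
        rw [Real.sqrt_le_one]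
        exact le_of_lt hz
      exact mul_le_of_le_one_right ht.le h4
    have h4 := hang _ h3
    linarith
  have h3 : a * en (w x) * ∫ z in U1, en (w (x - t • z)) ≤ a * en (w x) * (Λ / t ^ 2) :=
    mul_le_mul_of_nonneg_left hb (mul_nonneg ha (en_nonneg _))
  have h4 : t ^ 2 * |Zf w w t x| ≤ 3 * BB * (en (w x) * (a * en (w x) * (Λ / t ^ 2))) := by
    refine h1.trans (mul_le_mul_of_nonneg_left ?_ (by linarith))
    exact mul_le_mul_of_nonneg_left (h2.trans h3) (en_nonneg _)
  have e1 : t * |Zf w w t x| = t⁻¹ * (t ^ 2 * |Zf w w t x|) := by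
    field_simp
  rw [e1]
  refine (mul_le_mul_of_nonneg_left h4 (inv_nonneg.2 ht.le)).trans (le_of_eq ?_)
  rw [← en_sq]
  field_simp

end

end Pool.Agent.R211.CD
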