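import Pool.Agent.R210.M8

/-!
The square function estimate for the mollified derivatives.
-/

open MeasureTheory Set Filter Topology
open scoped ContDiff
open H459R3.NS Pool.Agent.R210

namespace Pool.Agent.R211.CD

/-- The function `cos (2 π k · x)`. -/
noncomputable def ck (k : K3) (x : V) : ℝ := Real.cos (2 * Real.pi * ph k x)

theorem sp_ck (k : K3) : SP (ck k) where
  smooth := Real.contDiff_cos.comp (contDiff_const.mul (ph_contDiff k))
  per := fun i x => by
    unfold ck
    rw [ph_add, ph_single]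
    have e : 2 * Real.pi * (ph k x + (k i : ℝ) * 1)
        = 2 * Real.pi * ph k x + (k i : ℝ) * (2 * Real.pi) := by ring
    rw [e, Real.cos_add_int_mul_two_pi]

/-- The Fourier multiplier of `mo psi t`. -/
noncomputable def ct (k : K3) (t : ℝ) : ℝ := mo psi t (ck k) 0

theorem psi_neg (z : V) : psi (-z) = psi z := by unfold psi; rw [rsq_neg]

theorem ee_eq (k : K3) (y : V) : ee k y = (Real.cos (2 * Real.pi * ph k y) : ℂ)
    + (Real.sin (2 * Real.pi * ph k y) : ℂ) * Complex.I := by
  have : ee k y = Complex.exp (((2 * Real.pi * ph k y : ℝ) : ℂ) * Complex.I) := by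
    rw [ee]; congr 1; push_cast; ring
  rw [this, Complex.exp_mul_I]
  push_cast
  rfl

theorem psi_cont : Continuous psi := psi_smooth.continuous

theorem int_psi_ee (k : K3) (t : ℝ) :
    ∫ z : V, (psi z : ℂ) * ee k (-(t • z)) = (ct k t : ℂ) := by
  have hph : Continuous fun z : V => 2 * Real.pi * ph k (-(t • z)) :=
    continuous_const.mul ((ph_contDiff k (n := 0)).continuous.comp (by fun_prop))
  have ic : Integrable fun z : V => psi z * Real.cos (2 * Real.pi * ph k (-(t • z))) :=
    (psi_cont.mul (Real.continuous_cos.comp hph)).integrable_of_hasCompactSupport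
      psi_compact.mul_right
  have is : Integrable fun z : V => psi z * Real.sin (2 * Real.pi * ph k (-(t • z))) :=
    (psi_cont.mul (Real.continuous_sin.comp hph)).integrable_of_hasCompactSupport
      psi_compact.mul_right
  have h0 : ∫ z : V, psi z * Real.sin (2 * Real.pi * ph k (-(t • z))) = 0 := by
    have h1 := integral_neg_eq_self
      (fun z : V => psi z * Real.sin (2 * Real.pi * ph k (-(t • z)))) volume
    have h2 : (fun z : V => psi (-z) * Real.sin (2 * Real.pi * ph k (-(t • (-z)))))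
        = fun z => -(psi z * Real.sin (2 * Real.pi * ph k (-(t • z)))) := by
      funext z
      rw [psi_neg, smul_neg, neg_neg]
      have e : ph k (-(t • z)) = -ph k (t • z) := by simp [ph, Finset.sum_neg_distrib]
      rw [e, mul_neg, Real.sin_neg]
      ring
    rw [h2, integral_neg] at h1
    linarith
  have e1 : (fun z : V => (psi z : ℂ) * ee k (-(t • z)))
      = fun z => ((psi z * Real.cos (2 * Real.pi * ph k (-(t • z))) : ℝ) : ℂ)
        + ((psi z * Real.sin (2 * Real.pi * ph k (-(t • z))) : ℝ) : ℂ) * Complex.I := by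
    funext z
    rw [ee_eq]
    push_cast
    ring
  rw [e1, integral_add ic.ofReal (is.ofReal.mul_const _), integral_mul_const,
    integral_complex_ofReal, integral_complex_ofReal, h0]
  simp only [Complex.ofReal_zero, zero_mul, add_zero]
  congr 1
  unfold ct mo ck
  simp only [zero_sub]

theorem abs_mo_le {K g : V → ℝ} (hK : Continuous K) (h0 : ∀ z, 1 ≤ rsq z → K z = 0) {B M : ℝ}
    (hB : ∀ z, |K z| ≤ B) (hM : ∀ x, |g x| ≤ M) (t : ℝ) (x : V) :
    |mo K t g x| ≤ B * vU * M := by
  have hB0 : 0 ≤ B := (abs_nonneg _).trans (hB 0)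
  have hM0 : 0 ≤ M := (abs_nonneg _).trans (hM 0)
  unfold mo
  rw [← Real.norm_eq_abs]
  have h1 : ∀ z, ‖K z * g (x - t • z)‖ ≤ U1.indicator (fun _ : V => B * M) z := by
    intro z
    rw [Real.norm_eq_abs, abs_mul]
    by_cases hz : z ∈ U1
    · rw [indicator_of_mem hz]
      exact mul_le_mul (hB z) (hM _) (abs_nonneg _) hB0
    · rw [indicator_of_notMem hz, h0 z (not_lt.1 hz), abs_zero, zero_mul]
  refine (norm_integral_le_of_norm_le ((integrable_indicator_iff measurable_U1).2
    (integrableOn_const U1_fin)) (Filter.Eventually.of_forall h1)).trans (le_of_eq ?_)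
  rw [integral_indicator measurable_U1, setIntegral_const]
  simp only [smul_eq_mul, Measure.real]
  show vU * (B * M) = _
  ring

theorem abs_ct_le (k : K3) (t : ℝ) : |ct k t| ≤ BB * vU := by
  have h := abs_mo_le psi_cont (fun z hz => psi_zero hz) psi_le (g := ck k) (M := 1)
    (fun x => Real.abs_cos_le_one _) t 0
  rw [mul_one] at h
  exact h

theorem pd_pd_ck (k : K3) (i : Fin 3) : pd i (pd i (ck k))
    = fun x => -(2 * Real.pi * k i) ^ 2 * ck k x := by
  have e1 : pd i (ck k) = fun x => -(2 * Real.pi * k i) * Real.sin (2 * Real.pi * ph k x) := by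
    funext x
    have h1 : HasFDerivAt (ck k) _ x := ((hasFDerivAt_ph k x).const_mul (2 * Real.pi)).cos
    unfold pd
    rw [h1.fderiv]
    simp only [smul_apply, sum_apply, ContinuousLinearMap.proj_apply,
      smul_eq_mul, Pi.single_apply]
    rw [Finset.sum_eq_single i (fun b _ hb => by rw [if_neg hb, mul_zero])
      (fun h => absurd (Finset.mem_univ i) h), if_pos rfl]
    ring
  rw [e1]
  funext x
  have h1 : HasFDerivAt (fun x => -(2 * Real.pi * k i) * Real.sin (2 * Real.pi * ph k x)) _ x :=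
    (((hasFDerivAt_ph k x).const_mul (2 * Real.pi)).sin).const_mul _
  unfold pd
  rw [h1.fderiv]
  simp only [smul_apply, sum_apply, ContinuousLinearMap.proj_apply,
    smul_eq_mul, Pi.single_apply]
  rw [Finset.sum_eq_single i (fun b _ hb => by rw [if_neg hb, mul_zero])
    (fun h => absurd (Finset.mem_univ i) h), if_pos rfl]
  unfold ck
  ring

/-- The square of the length of the frequency. -/
noncomputable def kk (k : K3) : ℝ := ∑ i, (k i : ℝ) ^ 2

theorem kk_nonneg (k : K3) : 0 ≤ kk k := Finset.sum_nonneg fun i _ => sq_nonneg _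

/-- The constant of the decay. -/
noncomputable def AC : ℝ := 4 * (BB * vU)

theorem ct_decay (k : K3) (t : ℝ) : (1 + t ^ 2 * kk k) * |ct k t| ≤ AC := by
  have hB := one_le_BB
  have hv := vU_nonneg
  have h1 := abs_ct_le k t
  have h2 : ∀ i : Fin 3, t ^ 2 * (k i : ℝ) ^ 2 * |ct k t| ≤ BB * vU := by
    intro i
    have h3 := abs_mo_le (K := pd i (pd i psi)) (g := ck k) (M := 1)
      (pd_smooth (pd_smooth psi_smooth i) i).continuous
      (fun z hz => pd_zero_of_rsq (pd_smooth psi_smooth i)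
        (fun z hz => pd_zero_of_rsq psi_smooth (fun z hz => psi_zero hz) i z hz) i z hz)
      (fun z => pd_pd_psi_le i i z) (fun x => Real.abs_cos_le_one _) t 0
    rw [mo_pd2 (sp_ck k), pd_pd_ck, mul_one] at h3
    have e : mo psi t (fun x => -(2 * Real.pi * k i) ^ 2 * ck k x) 0
        = -(2 * Real.pi * k i) ^ 2 * ct k t := by
      unfold ct mo
      rw [← integral_const_mul]
      congr 1
      funext z
      ring
    rw [e, abs_mul, abs_mul, abs_neg, abs_of_nonneg (sq_nonneg t),
      abs_of_nonneg (sq_nonneg (2 * Real.pi * (k i : ℝ)))] at h3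
    refine le_trans ?_ h3
    have hpi := Real.pi_gt_three
    have h4 : (k i : ℝ) ^ 2 ≤ (2 * Real.pi * k i) ^ 2 := by
      rw [mul_pow]
      exact le_mul_of_one_le_left (sq_nonneg _) (by nlinarith)
    calc t ^ 2 * (k i : ℝ) ^ 2 * |ct k t| = t ^ 2 * ((k i : ℝ) ^ 2 * |ct k t|) := by ring
      _ ≤ _ := mul_le_mul_of_nonneg_left (mul_le_mul_of_nonneg_right h4 (abs_nonneg _))
        (sq_nonneg _)
  have h3 := Finset.sum_le_sum fun i (_ : i ∈ Finset.univ) => h2 i
  rw [← Finset.sum_mul, ← Finset.mul_sum] at h3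
  simp only [Finset.sum_const, Finset.card_univ, Fintype.card_fin, nsmul_eq_mul] at h3
  have h4 : t ^ 2 * kk k * |ct k t| ≤ 3 * (BB * vU) := by
    unfold kk
    exact_mod_cast h3
  unfold AC
  linarith

theorem ct_cont (k : K3) : Continuous (ct k) := by
  have h := mo_cont psi_cont psi_compact (sp_ck k).smooth.continuous (sp_ck k).per
  have h2 : Continuous fun t : ℝ => ((t, (0 : V)) : ℝ × V) := by fun_prop
  have h3 := h.comp h2
  show Continuous fun t => mo psi t (ck k) 0
  exact h3

/-- The integral in the scale. -/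
theorem int_ct (k : K3) (i : Fin 3) {ρ : ℝ} (hρ : 0 ≤ ρ) :
    ∫ t in (0 : ℝ)..ρ, t * (ct k t ^ 2 * (2 * Real.pi * k i) ^ 2) ≤ 2 * Real.pi ^ 2 * AC ^ 2 := by
  have hc := ct_cont k
  have hk := kk_nonneg k
  set F : ℝ → ℝ := fun t => -(2 * Real.pi ^ 2 * AC ^ 2) * (1 + t ^ 2 * kk k)⁻¹ with hF
  have hpos : ∀ t : ℝ, 0 < 1 + t ^ 2 * kk k := fun t => by positivity
  have hd : ∀ t, HasDerivAt F (2 * Real.pi ^ 2 * AC ^ 2 * (2 * t * kk k)
      / (1 + t ^ 2 * kk k) ^ 2) t := by
    intro t
    have h1 : HasDerivAt (fun t : ℝ => 1 + t ^ 2 * kk k) (2 * t * kk k) t := by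
      have := ((hasDerivAt_pow 2 t).mul_const (kk k)).const_add 1
      refine this.congr_deriv ?_
      norm_num
    have h2 := (h1.inv (hpos t).ne').const_mul (-(2 * Real.pi ^ 2 * AC ^ 2))
    refine h2.congr_deriv ?_
    ring
  have hci : Continuous fun t : ℝ => 2 * Real.pi ^ 2 * AC ^ 2 * (2 * t * kk k)
      / (1 + t ^ 2 * kk k) ^ 2 := by
    refine Continuous.div (by fun_prop) (by fun_prop) fun t => (pow_pos (hpos t) 2).ne'
  have h3 := intervalIntegral.integral_eq_sub_of_hasDerivAt (a := 0) (b := ρ)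
    (fun t _ => hd t) (hci.intervalIntegrable _ _)
  have h4 : ∫ t in (0 : ℝ)..ρ, t * (ct k t ^ 2 * (2 * Real.pi * k i) ^ 2)
      ≤ ∫ t in (0 : ℝ)..ρ, 2 * Real.pi ^ 2 * AC ^ 2 * (2 * t * kk k)
        / (1 + t ^ 2 * kk k) ^ 2 := by
    refine intervalIntegral.integral_mono_on hρ (Continuous.intervalIntegrable (by fun_prop) _ _)
      (hci.intervalIntegrable _ _) fun t ht => ?_
    rw [le_div_iff₀ (pow_pos (hpos t) 2)]
    have h5 := ct_decay k t
    have h6 : (1 + t ^ 2 * kk k) ^ 2 * ct k t ^ 2 ≤ AC ^ 2 := by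
      have := pow_le_pow_left₀ (mul_nonneg (hpos t).le (abs_nonneg _)) h5 2
      rwa [mul_pow, sq_abs] at this
    have h7 : (k i : ℝ) ^ 2 ≤ kk k :=
      Finset.single_le_sum (f := fun i => (k i : ℝ) ^ 2) (fun i _ => sq_nonneg _)
        (Finset.mem_univ i)
    have ht0 : 0 ≤ t := ht.1
    calc t * (ct k t ^ 2 * (2 * Real.pi * k i) ^ 2) * (1 + t ^ 2 * kk k) ^ 2
        = (4 * Real.pi ^ 2 * t * (k i : ℝ) ^ 2) * ((1 + t ^ 2 * kk k) ^ 2 * ct k t ^ 2) := by ring
      _ ≤ (4 * Real.pi ^ 2 * t * kk k) * AC ^ 2 := by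
          refine mul_le_mul (mul_le_mul_of_nonneg_left h7 (by positivity)) h6 (by positivity)
            (by positivity)
      _ = _ := by ring
  rw [h3] at h4
  refine h4.trans ?_
  simp only [hF]
  have h8 : 0 ≤ 2 * Real.pi ^ 2 * AC ^ 2 * (1 + ρ ^ 2 * kk k)⁻¹ := by positivity
  have e : (1 + (0 : ℝ) ^ 2 * kk k)⁻¹ = 1 := by norm_num
  rw [e]
  linarith

/-- The mollification as a Fourier series. -/
theorem mo_eq_S {g : V → ℝ} (hg : SP g) (t : ℝ) (x : V) :
    (mo psi t g x : ℂ) = S (fun k => (ct k t : ℂ) * fr g k) x := by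
  have hs := (rap_fr hg).summable
  set F : K3 → V → ℂ := fun k z => (psi z : ℂ) * (fr g k * ee k (x - t • z)) with hF
  have hee : ∀ k, Continuous fun z : V => ee k (x - t • z) := fun k =>
    (ee_continuous k).comp (by fun_prop)
  have hpsiC : Continuous fun z => (psi z : ℂ) := Complex.continuous_ofReal.comp psi_cont
  have hpsiK : HasCompactSupport fun z => (psi z : ℂ) :=
    psi_compact.comp_left (g := Complex.ofReal) Complex.ofReal_zero
  have hFi : ∀ k, Integrable (F k) := fun k =>
    (hpsiC.mul (continuous_const.mul (hee k))).integrable_of_hasCompactSupport hpsiK.mul_right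
  have hn : ∀ k z, ‖F k z‖ = ‖fr g k‖ * |psi z| := by
    intro k z
    simp only [hF]
    rw [norm_mul, norm_mul, norm_ee, Complex.norm_real, Real.norm_eq_abs]
    ring
  have hsum : Summable fun k => ∫ z, ‖F k z‖ := by
    have e : ∀ k, ∫ z, ‖F k z‖ = ‖fr g k‖ * ∫ z, |psi z| := by
      intro k
      rw [← integral_const_mul]
      congr 1
      funext z
      exact hn k z
    simp_rw [e]
    exact hs.norm.mul_right _
  have h := hasSum_integral_of_summable_integral_norm hFi hsum
  have e1 : ∀ k, ∫ z, F k z = (ct k t : ℂ) * fr g k * ee k x := by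
    intro k
    have e2 : F k = fun z => (fr g k * ee k x) * ((psi z : ℂ) * ee k (-(t • z))) := by
      funext z
      simp only [hF]
      rw [sub_eq_add_neg, ee_add]
      ring
    rw [e2, integral_const_mul, int_psi_ee]
    ring
  simp_rw [e1] at h
  have e3 : (∫ z, ∑' k, F k z) = (mo psi t g x : ℂ) := by
    unfold mo
    rw [← integral_complex_ofReal]
    congr 1
    funext z
    simp only [hF]
    rw [tsum_mul_left]
    have := S_fr hg (x - t • z)
    unfold S at this
    rw [this]
    push_cast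
    rfl
  rw [e3] at h
  unfold S
  exact h.tsum_eq.symm

theorem int_mo_sq {g : V → ℝ} (hg : SP g) (t : ℝ) :
    ∫ x in cube, mo psi t g x ^ 2 = ∑' k, ct k t ^ 2 * ‖fr g k‖ ^ 2 := by
  have hs : Summable fun k => (ct k t : ℂ) * fr g k := by
    refine Summable.of_norm_bounded (g := fun k => (BB * vU) * ‖fr g k‖)
      ((rap_fr hg).summable.norm.mul_left _) fun k => ?_
    rw [norm_mul, Complex.norm_real, Real.norm_eq_abs]
    exact mul_le_mul_of_nonneg_right (abs_ct_le k t) (norm_nonneg _)
  have h := integral_norm_sq hs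
  rw [n2_sq] at h
  have e1 : ∀ x, ‖S (fun k => (ct k t : ℂ) * fr g k) x‖ ^ 2 = mo psi t g x ^ 2 := by
    intro x
    rw [← mo_eq_S hg, Complex.norm_real, Real.norm_eq_abs, sq_abs]
  simp_rw [e1] at h
  rw [h]
  refine tsum_congr fun k => ?_
  rw [norm_mul, mul_pow, Complex.norm_real, Real.norm_eq_abs, sq_abs]

/-- The constant of the square function estimate. -/
noncomputable def CS : ℝ := 2 * Real.pi ^ 2 * AC ^ 2

theorem CS_nonneg : 0 ≤ CS := by unfold CS; positivity

/-- **The square function estimate.** -/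
theorem sq_fn {g : V → ℝ} (hg : SP g) (i : Fin 3) {ρ : ℝ} (hρ : 0 ≤ ρ) :
    ∫ t in (0 : ℝ)..ρ, t * ∫ x in cube, mo psi t (pd i g) x ^ 2 ≤ CS * ∫ x in cube, g x ^ 2 := by
  have hg2 : ∫ x in cube, g x ^ 2 = ∑' k, ‖fr g k‖ ^ 2 := by
    rw [← n2_fr hg, n2_sq]
  have hsq : Summable fun k => ‖fr g k‖ ^ 2 := summable_sq (rap_fr hg).summable
  set F : K3 → ℝ → ℝ := fun k t => (t * (ct k t ^ 2 * (2 * Real.pi * k i) ^ 2)) * ‖fr g k‖ ^ 2
    with hF
  have hFc : ∀ k, Continuous (F k) := fun k => by
    have := ct_cont k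
    simp only [hF]
    fun_prop
  have e1 : ∀ t, t * ∫ x in cube, mo psi t (pd i g) x ^ 2 = ∑' k, F k t := by
    intro t
    rw [int_mo_sq (hg.pd i), fr_pd hg, ← tsum_mul_left]
    refine tsum_congr fun k => ?_
    simp only [hF, D]
    have e2 : ‖2 * (Real.pi : ℂ) * Complex.I * (k i : ℂ) * fr g k‖ ^ 2
        = (2 * Real.pi * k i) ^ 2 * ‖fr g k‖ ^ 2 := by
      rw [norm_mul, norm_mul, norm_mul, norm_mul, Complex.norm_I, Complex.norm_real,
        Real.norm_eq_abs, Complex.norm_ofNat, Complex.norm_intCast, mul_one]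
      rw [mul_pow, mul_pow, mul_pow, sq_abs, sq_abs, mul_pow, mul_pow]
    rw [e2]
    ring
  have hint : ∀ k, Integrable (F k) (volume.restrict (Ioc 0 ρ)) := fun k =>
    ((hFc k).integrableOn_Icc).mono_set Ioc_subset_Icc_self
  have hb : ∀ k, ∫ t in Ioc 0 ρ, ‖F k t‖ ≤ CS * ‖fr g k‖ ^ 2 := by
    intro k
    have h1 : ∫ t in Ioc 0 ρ, ‖F k t‖ = ∫ t in Ioc 0 ρ, F k t := by
      refine setIntegral_congr_fun measurableSet_Ioc fun t ht => ?_
      have ht0 : 0 ≤ t := ht.1.le
      show ‖F k t‖ = F k t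
      rw [Real.norm_eq_abs, abs_of_nonneg]
      simp only [hF]
      positivity
    rw [h1, ← intervalIntegral.integral_of_le hρ]
    simp only [hF]
    rw [intervalIntegral.integral_mul_const]
    exact mul_le_mul_of_nonneg_right (int_ct k i hρ) (sq_nonneg _)
  have hsum : Summable fun k => ∫ t in Ioc 0 ρ, ‖F k t‖ :=
    Summable.of_nonneg_of_le (fun k => integral_nonneg fun t => norm_nonneg _) hb
      (hsq.mul_left CS)
  have h := hasSum_integral_of_summable_integral_norm hint hsum
  rw [intervalIntegral.integral_of_le hρ]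
  simp_rw [e1]
  rw [← h.tsum_eq, hg2, ← tsum_mul_left]
  refine h.summable.tsum_le_tsum (fun k => ?_) (hsq.mul_left CS)
  refine le_trans ?_ (hb k)
  exact (le_abs_self _).trans (by
    rw [← Real.norm_eq_abs]
    exact norm_integral_le_integral_norm _)

end Pool.Agent.R211.CD
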